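import Pool.Agent.Helper25.Kro.Rep
import Pool.Agent.Helper69.BQ.Statement

/-!
# The classification in the notation of project BQ
-/

namespace Pool.Agent.Helper25.Kro

open Module LinearMap

variable {V : Type} [AddCommGroup V] [Module (ZMod 2) V]

lemma comp_eq_companion {n : ℕ} (q : Fin n → ZMod 2) :
    comp q = Pool.Agent.Helper69.BQ.companion q := rfl

lemma kroRep_eq {m n : ℕ} (M N : Matrix (Fin n) (Fin m) (ZMod 2)) (g : C22) (x) :
    Pool.Agent.Helper69.BQ.kroRep M N g x = kroRep M N g x := by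
  obtain ⟨a, b⟩ := x
  rw [kroRep_apply]
  show (a, b + _ + _) = _
  rw [add_assoc]

lemma inList_of_isKro {ρ : Representation (ZMod 2) C22 V} {m n : ℕ}
    {M N : Matrix (Fin n) (Fin m) (ZMod 2)} (h : IsKro ρ M N)
    (hl : Pool.Agent.Helper69.BQ.Listed m n M N) : Pool.Agent.Helper69.BQ.InList ρ := by
  obtain ⟨α, f, hf⟩ := h
  refine ⟨m, n, M, N, α, hl, f.symm, ?_⟩
  intro g v
  obtain ⟨x, rfl⟩ := f.surjective v
  show f.symm (ρ (α g) (f x)) = _
  rw [← hf, f.symm_apply_apply, f.symm_apply_apply, kroRep_eq]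

/-- Exchange of the two matrices. -/
lemma IsKro.swap {ρ : Representation (ZMod 2) C22 V} {m n : ℕ}
    {M N : Matrix (Fin n) (Fin m) (ZMod 2)} (h : IsKro ρ M N) : IsKro ρ N M := by
  obtain ⟨α, f, hf⟩ := h
  let β : C22 ≃* C22 := AddEquiv.toMultiplicative (AddEquiv.prodComm (M := ZMod 2) (N := ZMod 2))
  refine ⟨β.trans α, f, ?_⟩
  rintro g ⟨a, b⟩
  show _ = ρ (α (β g)) (f (a, b))
  rw [← hf, kroRep_apply, kroRep_apply, add_comm ((Multiplicative.toAdd g).1 • N.mulVec a)]
  rfl

theorem inList_of [FiniteDimensional (ZMod 2) V] {ρ : Representation (ZMod 2) C22 V}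
    (hρ : Pool.Agent.Helper69.BQ.Indecomposable ρ) (hN : ∀ v, ∑ g : C22, ρ g v = 0)
    (hc : finrank (ZMod 2) (Pool.Agent.Helper69.BQ.repCore ρ) ≤ 5) :
    Pool.Agent.Helper69.BQ.InList ρ := by
  have huniv : (Finset.univ : Finset C22) = {1, sg, tg, rg} := by decide
  have hN' : ∀ v, v + ρ sg v + ρ tg v + ρ rg v = 0 := by
    intro v
    have h1 := hN v
    rw [huniv, Finset.sum_insert (by decide), Finset.sum_insert (by decide),
      Finset.sum_insert (by decide), Finset.sum_singleton, rho_one] at h1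
    rw [← h1]
    abel
  rcases rep_classify hρ hN' hc with ⟨n, hn, h⟩ | ⟨n, hn, hn', h⟩ | ⟨n, hn, hn', h⟩ | h | h | h |
    h | h
  · have e1 : mD (ZMod 2) n (n + 1) = Matrix.of fun i j => if j = i.castSucc then 1 else 0 := by
      ext i j
      simp only [mD, Matrix.of_apply, Fin.ext_iff, Fin.val_castSucc, eq_comm]
    have e2 : mU (ZMod 2) n (n + 1) = Matrix.of fun i j => if j = i.succ then 1 else 0 := by
      ext i j
      simp only [mU, Matrix.of_apply, Fin.ext_iff, Fin.val_succ, eq_comm]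
    rw [e1, e2] at h
    exact inList_of_isKro h.swap (.I n hn)
  · have e1 : mD (ZMod 2) (n + 1) n = Matrix.of fun i j => if i = j.castSucc then 1 else 0 := by
      ext i j
      simp only [mD, Matrix.of_apply, Fin.ext_iff, Fin.val_castSucc]
    have e2 : mL (ZMod 2) (n + 1) n = Matrix.of fun i j => if i = j.succ then 1 else 0 := by
      ext i j
      simp only [mL, Matrix.of_apply, Fin.ext_iff, Fin.val_succ]
    rw [e1, e2] at h
    exact inList_of_isKro h (.P n hn hn')
  · exact inList_of_isKro h.swap (.N n hn hn')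
  · exact inList_of_isKro h.swap .R7
  · exact inList_of_isKro h.swap .R11
  · exact inList_of_isKro h.swap .R19
  · exact inList_of_isKro h.swap .R21
  · exact inList_of_isKro h.swap .R37

end Pool.Agent.Helper25.Kro
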