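import Mathlib

namespace Pool.Agent.Helper25.Kron
end Pool.Agent.Helper25.Kron

/-!
# Explicit normal forms: generalities

`Iso A B M N` says that `V` with the two endomorphisms `A, B` is the Kronecker module of the
pencil of matrices `M, N`.
-/

namespace Pool.Agent.Helper25.Kro

open Module LinearMap Pool.Agent.Helper25.Kron

variable {k V : Type*} [Field k] [AddCommGroup V] [Module k V]

/-- `V` with `A, B` is the Kronecker module of `M, N`. -/
def Iso (A B : V →ₗ[k] V) {n m : ℕ} (M N : Matrix (Fin m) (Fin n) k) : Prop :=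
  ∃ f : ((Fin n → k) × (Fin m → k)) ≃ₗ[k] V,
    (∀ a b, A (f (a, b)) = f (0, M.mulVec a)) ∧ (∀ a b, B (f (a, b)) = f (0, N.mulVec a))

lemma Iso.symm {A B : V →ₗ[k] V} {n m : ℕ} {M N : Matrix (Fin m) (Fin n) k}
    (h : Iso A B M N) : Iso B A N M := by
  obtain ⟨f, h1, h2⟩ := h
  exact ⟨f, h2, h1⟩

/-- Change of bases. -/
lemma Iso.change {A B : V →ₗ[k] V} {n m : ℕ} {M N M' N' : Matrix (Fin m) (Fin n) k}
    (h : Iso A B M N) (P P' : Matrix (Fin n) (Fin n) k) (Q Q' : Matrix (Fin m) (Fin m) k)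
    (hP : P * P' = 1) (hQ : Q * Q' = 1) (h1 : M * P = Q * M') (h2 : N * P = Q * N') :
    Iso A B M' N' := by
  obtain ⟨f, f1, f2⟩ := h
  have hP' : P' * P = 1 := mul_eq_one_comm.1 hP
  have hQ' : Q' * Q = 1 := mul_eq_one_comm.1 hQ
  let gP : (Fin n → k) ≃ₗ[k] (Fin n → k) := LinearEquiv.ofLinearMap P.mulVecLin P'.mulVecLin
    (by rw [← Matrix.mulVecLin_mul, hP, Matrix.mulVecLin_one])
    (by rw [← Matrix.mulVecLin_mul, hP', Matrix.mulVecLin_one])
  let gQ : (Fin m → k) ≃ₗ[k] (Fin m → k) := LinearEquiv.ofLinearMap Q.mulVecLin Q'.mulVecLin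
    (by rw [← Matrix.mulVecLin_mul, hQ, Matrix.mulVecLin_one])
    (by rw [← Matrix.mulVecLin_mul, hQ', Matrix.mulVecLin_one])
  refine ⟨(LinearEquiv.prodCongr gP gQ).trans f, ?_, ?_⟩
  · intro a b
    show A (f (P.mulVec a, Q.mulVec b)) = f (P.mulVec 0, Q.mulVec (M'.mulVec a))
    rw [f1, Matrix.mulVec_mulVec, h1, Matrix.mulVec_mulVec, Matrix.mulVec_zero]
  · intro a b
    show B (f (P.mulVec a, Q.mulVec b)) = f (P.mulVec 0, Q.mulVec (N'.mulVec a))
    rw [f2, Matrix.mulVec_mulVec, h2, Matrix.mulVec_mulVec, Matrix.mulVec_zero]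

/-- Construction of an isomorphism from a basis. -/
lemma Iso.mk {A B : V →ₗ[k] V} {n m : ℕ} {M N : Matrix (Fin m) (Fin n) k}
    (u : Fin n → V) (w : Fin m → V) (hw : LinearIndependent k w)
    (hAw : ∀ j, A (w j) = 0) (hBw : ∀ j, B (w j) = 0)
    (hAu : ∀ i, A (u i) = ∑ j, M j i • w j) (hBu : ∀ i, B (u i) = ∑ j, N j i • w j)
    (hinj : ∀ a, M.mulVec a = 0 → N.mulVec a = 0 → a = 0)
    (hspan : ∀ v, ∃ (a : Fin n → k) (b : Fin m → k), v = ∑ i, a i • u i + ∑ j, b j • w j) : Iso A B M N := by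
  let F : ((Fin n → k) × (Fin m → k)) →ₗ[k] V :=
    (Fintype.linearCombination k u).coprod (Fintype.linearCombination k w)
  have hF : ∀ a b, F (a, b) = ∑ i, a i • u i + ∑ j, b j • w j := by
    intro a b
    simp [F, Fintype.linearCombination_apply]
  have hw' : ∀ c : Fin m → k, ∑ j, c j • w j = 0 → c = 0 := by
    intro c hc
    funext j
    exact (Fintype.linearIndependent_iff.1 hw) c hc j
  have hcomp : ∀ (T : V →ₗ[k] V) (M : Matrix (Fin m) (Fin n) k), (∀ j, T (w j) = 0) →
      (∀ i, T (u i) = ∑ j, M j i • w j) → ∀ a b, T (F (a, b)) = ∑ j, M.mulVec a j • w j := by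
    intro T M h1 h2 a b
    rw [hF, map_add, map_sum, map_sum]
    simp only [map_smul, h1, h2, smul_zero, Finset.sum_const_zero, add_zero]
    simp only [Finset.smul_sum, Matrix.mulVec, dotProduct, Finset.sum_smul]
    rw [Finset.sum_comm]
    apply Finset.sum_congr rfl
    intro j _
    apply Finset.sum_congr rfl
    intro i _
    rw [smul_smul, mul_comm]
  have hFi : Function.Injective F := by
    rw [← LinearMap.ker_eq_bot, LinearMap.ker_eq_bot']
    rintro ⟨a, b⟩ h0
    have h1 : M.mulVec a = 0 := hw' _ (by rw [← hcomp A M hAw hAu a b, h0, map_zero])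
    have h2 : N.mulVec a = 0 := hw' _ (by rw [← hcomp B N hBw hBu a b, h0, map_zero])
    have h3 := hinj a h1 h2
    subst h3
    rw [hF] at h0
    have h4 : b = 0 := hw' _ (by simpa using h0)
    rw [h4]
    rfl
  have hFs : Function.Surjective F := by
    intro v
    obtain ⟨a, b, rfl⟩ := hspan v
    exact ⟨(a, b), hF a b⟩
  refine ⟨LinearEquiv.ofBijective F ⟨hFi, hFs⟩, ?_, ?_⟩
  · intro a b
    show A (F (a, b)) = F (0, M.mulVec a)
    rw [hcomp A M hAw hAu, hF]
    simp
  · intro a b
    show B (F (a, b)) = F (0, N.mulVec a)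
    rw [hcomp B N hBw hBu, hF]
    simp

/-- Independence from a triangular family of functionals. -/
lemma indep_of_triangular {N : ℕ} (x : Fin N → V) (G : Fin N → V →ₗ[k] k)
    (h1 : ∀ i, G i (x i) = 1) (h0 : ∀ i j, i < j → G i (x j) = 0) : LinearIndependent k x := by
  rw [Fintype.linearIndependent_iff]
  intro c hc
  have key : ∀ r : ℕ, ∀ i : Fin N, (i : ℕ) ≤ r → c i = 0 := by
    intro r
    induction r with
    | zero =>
      intro i hi
      have h2 := congrArg (G i) hc
      rw [map_sum, map_zero, Finset.sum_eq_single i] at h2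
      · simpa [h1] using h2
      · intro j _ hj
        have : i < j := by
          rw [Fin.lt_def]
          have : (j : ℕ) ≠ i := fun h => hj (Fin.ext h)
          omega
        rw [map_smul, h0 i j this, smul_zero]
      · intro h; exact absurd (Finset.mem_univ _) h
    | succ r ih =>
      intro i hi
      have h2 := congrArg (G i) hc
      rw [map_sum, map_zero, Finset.sum_eq_single i] at h2
      · simpa [h1] using h2
      · intro j _ hj
        rcases lt_or_gt_of_ne hj with h3 | h3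
        · rw [ih j (by rw [Fin.lt_def] at h3; omega), zero_smul, map_zero]
        · rw [map_smul, h0 i j h3, smul_zero]
      · intro h; exact absurd (Finset.mem_univ _) h
  exact fun i => key i i le_rfl

/-- Independence from an upper triangular family of functionals. -/
lemma indep_of_triangular' {N : ℕ} (x : Fin N → V) (G : Fin N → V →ₗ[k] k)
    (h1 : ∀ i, G i (x i) = 1) (h0 : ∀ i j, j < i → G i (x j) = 0) : LinearIndependent k x := by
  rw [← linearIndependent_equiv Fin.revPerm]
  exact indep_of_triangular (x ∘ Fin.revPerm) (fun i => G (Fin.rev i)) (fun i => h1 _)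
    (fun i j hij => h0 _ _ (Fin.rev_lt_rev.2 hij))

end Pool.Agent.Helper25.Kro
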