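import Mathlib
import Pool.Agent.Helper25.Kro.Basic
import Pool.Agent.Helper25.Kron

/-!
# Explicit chains in the three non-regular-invertible cases
-/

namespace Pool.Agent.Helper25.Kro

open Module LinearMap Pool.Agent.Helper25.Kron

variable {k V : Type*} [Field k] [AddCommGroup V] [Module k V] {A B C : V →ₗ[k] V}
  [FiniteDimensional k V]

/-- The regular case. -/
lemma regular_chain (h : Sys A B C) (n : ℕ) (h1 : sq B A ⊥ n ≤ range A)
    (h2 : ¬ sq B A ⊥ (n + 1) ≤ range A) :
    ∃ u : ℕ → V, (∀ i < n, B (u (i + 1)) = A (u i)) ∧ A (u n) = 0 ∧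
      LinearIndependent k (fun i : Fin (n + 1) => B (u i)) ∧
      ∀ v, ∃ (a b : Fin (n + 1) → k), v = ∑ i, a i • u i + ∑ i, b i • B (u i) := by
  obtain ⟨w, hw, hwA⟩ := Set.not_subset.1 h2
  obtain ⟨u, hu0, hu1, hu2⟩ := exists_chain_vector B A ⊥ n w hw
  rw [Submodule.mem_bot] at hu2
  obtain ⟨g, hg1, hg2⟩ := exists_functional_one _ w hwA
  obtain ⟨G, hG0, hG1, -⟩ := exists_chain_functional B A ⊥ n g (fun x hx => hg1 x (h1 hx))
  have hGA : ∀ v, G 0 (A v) = 0 := fun v => by rw [hG0]; exact hg1 _ ⟨v, rfl⟩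
  let e : V →ₗ[k] V := ∑ i ∈ Finset.range (n + 1),
    ((G i ∘ₗ B).smulRight (u i) + (G i).smulRight (B (u i)))
  have he : ∀ v, e v = ∑ i ∈ Finset.range (n + 1), (G i (B v) • u i + G i v • B (u i)) := by
    intro v
    simp [e, LinearMap.sum_apply]
  have heB : ∀ v, e (B v) = B (e v) := by
    intro v
    rw [he, he, map_sum]
    apply Finset.sum_congr rfl
    intro i _
    simp [h.BB]
  have heA : ∀ v, e (A v) = A (e v) := by
    intro v
    rw [he, he, map_sum]
    have e1 : ∀ i, G i (B (A v)) • u i + G i (A v) • B (u i) = G i (A v) • B (u i) := by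
      intro i; simp [h.BA]
    have e2 : ∀ i, A (G i (B v) • u i + G i v • B (u i)) = G i (B v) • A (u i) := by
      intro i; simp [h.AB]
    simp only [e1, e2]
    rw [Finset.sum_range_succ', Finset.sum_range_succ, hGA, zero_smul, hu2, smul_zero]
    congr 1
    apply Finset.sum_congr rfl
    intro i hi
    rw [Finset.mem_range] at hi
    rw [hG1 i hi, hu1 i hi]
  have hone : ∀ i ≤ n, G i (B (u i)) = 1 := by
    intro i
    induction i with
    | zero => intro _; rw [hG0, hu0, hg2]
    | succ i ih =>
      intro hi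
      rw [hu1 i (by omega), hG1 i (by omega)]
      exact ih (by omega)
  have hz : ∀ i t, i + 1 + t ≤ n → G i (B (u (i + 1 + t))) = 0 := by
    intro i
    induction i with
    | zero =>
      intro t ht
      rw [show 0 + 1 + t = t + 1 by omega, hu1 t (by omega)]
      exact hGA _
    | succ i ih =>
      intro t ht
      rw [show i + 1 + 1 + t = (i + 1 + t) + 1 by omega, hu1 _ (by omega), hG1 i (by omega)]
      exact ih t (by omega)
  have hzero : ∀ i j, i < j → j ≤ n → G i (B (u j)) = 0 := by
    intro i j hij hj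
    have := hz i (j - i - 1) (by omega)
    rwa [show i + 1 + (j - i - 1) = j by omega] at this
  have hfix : e (B (u n)) = B (u n) := by
    rw [he, Finset.sum_range_succ, Finset.sum_eq_zero]
    · simp [h.BB, hone n le_rfl]
    · intro i hi
      rw [Finset.mem_range] at hi
      simp [h.BB, hzero i n hi le_rfl]
  have hne : B (u n) ≠ 0 := by
    intro h0
    have := hone n le_rfl
    rw [h0, map_zero] at this
    exact zero_ne_one this
  have hsurj := h.surj e heA heB ⟨_, hne, hfix⟩
  refine ⟨u, hu1, hu2, ?_, ?_⟩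
  · apply indep_of_triangular _ (fun i => G i)
    · intro i; exact hone i (by have := i.2; omega)
    · intro i j hij
      exact hzero i j hij (by have := j.2; omega)
  · intro v
    obtain ⟨v, rfl⟩ := hsurj v
    refine ⟨fun i => G i (B v), fun i => G i v, ?_⟩
    rw [he, Finset.sum_range, ← Finset.sum_add_distrib]

/-- The preinjective case. -/
lemma preinjective_chain (h : Sys A B C) (m : ℕ) (u0 : V) (hu0A : A u0 = 0)
    (h1 : B u0 ∈ sq A B ⊥ (m + 1)) (h2 : B u0 ∉ sq A B ⊥ m) :
    ∃ x : ℕ → V, A (x 0) = 0 ∧ (∀ i ≤ m, A (x (i + 1)) = B (x i)) ∧ B (x (m + 1)) = 0 ∧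
      LinearIndependent k (fun i : Fin (m + 1) => B (x i)) ∧
      ∀ v, ∃ (a : Fin (m + 2) → k) (b : Fin (m + 1) → k),
        v = ∑ i, a i • x i + ∑ i, b i • B (x i) := by
  obtain ⟨u, hu0, hu1, hu2⟩ := exists_chain_vector A B ⊥ m _ h1
  rw [Submodule.mem_bot] at hu2
  obtain ⟨g, hg1, hg2⟩ := exists_functional_one _ _ h2
  obtain ⟨G, hG0, hG1, -⟩ := exists_chain_functional A B ⊥ m g hg1
  let e : V →ₗ[k] V := (G 0 ∘ₗ B).smulRight u0 + ∑ i ∈ Finset.range (m + 1),
    ((G i ∘ₗ A).smulRight (u i) + (G i).smulRight (A (u i)))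
  have he : ∀ v, e v = G 0 (B v) • u0 +
      ∑ i ∈ Finset.range (m + 1), (G i (A v) • u i + G i v • A (u i)) := by
    intro v
    simp [e, LinearMap.sum_apply]
  have heA : ∀ v, e (A v) = A (e v) := by
    intro v
    rw [he, he, map_add, map_sum, h.BA, map_zero, zero_smul, map_smul, hu0A, smul_zero]
    congr 1
    apply Finset.sum_congr rfl
    intro i _
    simp [h.AA]
  have heB : ∀ v, e (B v) = B (e v) := by
    intro v
    rw [he, he, map_add, map_sum, h.BB, map_zero, zero_smul, zero_add, map_smul]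
    have e1 : ∀ i, G i (A (B v)) • u i + G i (B v) • A (u i) = G i (B v) • A (u i) := by
      intro i; simp [h.AB]
    have e2 : ∀ i, B (G i (A v) • u i + G i v • A (u i)) = G i (A v) • B (u i) := by
      intro i; simp [h.BA]
    simp only [e1, e2]
    rw [Finset.sum_range_succ', Finset.sum_range_succ, hu2, smul_zero, add_zero, hu0, add_comm]
    congr 1
    apply Finset.sum_congr rfl
    intro i hi
    rw [Finset.mem_range] at hi
    rw [hG1 i hi, hu1 i hi]
  have hzero : ∀ i < m, G (i + 1) (B u0) = 0 := by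
    intro i hi
    rw [hG1 i hi, hu0A, map_zero]
  have hfix : e (B u0) = B u0 := by
    rw [he, Finset.sum_range_succ', Finset.sum_eq_zero]
    · simp [h.BB, h.AB, hG0, hg2, hu0]
    · intro i hi
      rw [Finset.mem_range] at hi
      simp [h.AB, hzero i hi]
  have hne : B u0 ≠ 0 := by
    intro h0
    rw [h0, map_zero] at hg2
    exact zero_ne_one hg2
  have hsurj := h.surj e heA heB ⟨_, hne, hfix⟩
  -- the combined chain
  let x : ℕ → V := fun i => Nat.casesOn i u0 u
  have hx0 : x 0 = u0 := rfl
  have hxs : ∀ i, x (i + 1) = u i := fun _ => rfl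
  have hxc : ∀ i ≤ m, A (x (i + 1)) = B (x i) := by
    intro i hi
    cases i with
    | zero => exact hu0
    | succ i => exact hu1 i (by omega)
  have hone : ∀ i ≤ m, G i (B (x i)) = 1 := by
    intro i
    induction i with
    | zero => intro _; rw [hG0, hx0, hg2]
    | succ i ih =>
      intro hi
      rw [hG1 i (by omega), hxc i (by omega)]
      exact ih (by omega)
  have hz : ∀ j t, j + 1 + t ≤ m → G (j + 1 + t) (B (x j)) = 0 := by
    intro j
    induction j with
    | zero =>
      intro t ht
      rw [show 0 + 1 + t = t + 1 by omega]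
      exact hzero t (by omega)
    | succ j ih =>
      intro t ht
      rw [show j + 1 + 1 + t = (j + 1 + t) + 1 by omega, hG1 _ (by omega), hxc j (by omega)]
      exact ih t (by omega)
  refine ⟨x, hu0A, hxc, hu2, ?_, ?_⟩
  · apply indep_of_triangular' _ (fun i => G i)
    · intro i; exact hone i (by have := i.2; omega)
    · intro i j hij
      rw [Fin.lt_def] at hij
      have := hz j (i - j - 1) (by have := i.2; omega)
      rwa [show (j : ℕ) + 1 + (i - j - 1) = i by omega] at this
  · intro v
    obtain ⟨v, rfl⟩ := hsurj v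
    refine ⟨Fin.cons (G 0 (B v)) (fun i => G i (A v)), fun i => G i v, ?_⟩
    rw [he, Fin.sum_univ_succ, Finset.sum_range, Finset.sum_add_distrib, add_assoc]
    congr 1
    congr 1
    apply Finset.sum_congr rfl
    intro i _
    rw [hxc i (by have := i.2; omega), ← hxc i (by have := i.2; omega), hxs]

/-- The preprojective case. -/
lemma preprojective_chain (h : Sys A B C) (m : ℕ)
    (h1 : range A ⊔ range B ≤ range B ⊔ sq A B ⊤ (m + 1))
    (h2 : ¬ range A ⊔ range B ≤ range B ⊔ sq A B ⊤ (m + 2)) :
    ∃ u W : ℕ → V, (∀ i ≤ m, A (u i) = W i) ∧ (∀ i ≤ m, B (u i) = W (i + 1)) ∧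
      LinearIndependent k (fun i : Fin (m + 2) => W i) ∧
      ∀ v, ∃ (a : Fin (m + 1) → k) (b : Fin (m + 2) → k),
        v = ∑ i, a i • u i + ∑ i, b i • W i := by
  have h3 : ¬ sq A B ⊤ (m + 1) ≤ range B ⊔ sq A B ⊤ (m + 2) := fun h4 =>
    h2 (h1.trans (sup_le le_sup_left h4))
  obtain ⟨w, hw, hwn⟩ := Set.not_subset.1 h3
  obtain ⟨u, hu0, hu1, -⟩ := exists_chain_vector A B ⊤ m w hw
  obtain ⟨g, hg1, hg2⟩ := exists_functional_one _ _ hwn
  obtain ⟨G, hG0, hG1, hG2⟩ := exists_chain_functional A B ⊤ (m + 2) g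
    (fun x hx => hg1 x (Submodule.mem_sup_right hx))
  have hGA : ∀ v, G (m + 1) (A v) = 0 := by
    intro v
    rw [← hG1 (m + 1) (by omega)]
    exact hG2 _ trivial
  have hGB : ∀ v, G 0 (B v) = 0 := by
    intro v
    rw [hG0]
    exact hg1 _ (Submodule.mem_sup_left ⟨v, rfl⟩)
  let e : V →ₗ[k] V := (∑ i ∈ Finset.range (m + 1),
    ((G i ∘ₗ A).smulRight (u i) + (G i).smulRight (A (u i)))) + (G (m + 1)).smulRight (B (u m))
  have he : ∀ v, e v = (∑ i ∈ Finset.range (m + 1), (G i (A v) • u i + G i v • A (u i))) +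
      G (m + 1) v • B (u m) := by
    intro v
    simp [e, LinearMap.sum_apply]
  have heA : ∀ v, e (A v) = A (e v) := by
    intro v
    rw [he, he, map_add, map_sum, hGA, zero_smul, map_smul, h.AB, smul_zero]
    congr 1
    apply Finset.sum_congr rfl
    intro i _
    simp [h.AA]
  have heB : ∀ v, e (B v) = B (e v) := by
    intro v
    rw [he, he, map_add, map_sum, map_smul, h.BB, smul_zero, add_zero]
    have e1 : ∀ i, G i (A (B v)) • u i + G i (B v) • A (u i) = G i (B v) • A (u i) := by
      intro i; simp [h.AB]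
    have e2 : ∀ i, B (G i (A v) • u i + G i v • A (u i)) = G i (A v) • B (u i) := by
      intro i; simp [h.BA]
    simp only [e1, e2]
    rw [Finset.sum_range_succ', Finset.sum_range_succ, hGB, zero_smul, add_zero,
      hG1 m (by omega)]
    congr 1
    apply Finset.sum_congr rfl
    intro i hi
    rw [Finset.mem_range] at hi
    rw [hG1 i (by omega), hu1 i hi]
  have hQ : ∀ t ≤ m, ∀ i, i + t ≤ m → G (m + 1 - t) (A (u i)) = 0 := by
    intro t
    induction t with
    | zero => intro _ i _; exact hGA _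
    | succ t ih =>
      intro ht i hi
      rw [show m + 1 - (t + 1) = m - t by omega, ← hG1 (m - t) (by omega), ← hu1 i (by omega)]
      have := ih (by omega) (i + 1) (by omega)
      rwa [show m + 1 - t = m - t + 1 by omega] at this
  have hzero : ∀ j < m + 1, G (j + 1) (A (u 0)) = 0 := by
    intro j hj
    have := hQ (m - j) (by omega) 0 (by omega)
    rwa [show m + 1 - (m - j) = j + 1 by omega] at this
  have hfix : e (A (u 0)) = A (u 0) := by
    rw [he, Finset.sum_range_succ', Finset.sum_eq_zero]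
    · rw [hGA, h.AA, map_zero, zero_smul, zero_smul, hG0, hu0, hg2]
      simp
    · intro i hi
      rw [Finset.mem_range] at hi
      simp [h.AA, hzero i (by omega)]
  have hne : A (u 0) ≠ 0 := by
    intro h0
    rw [← hu0, h0, map_zero] at hg2
    exact zero_ne_one hg2
  have hsurj := h.surj e heA heB ⟨_, hne, hfix⟩
  let W : ℕ → V := fun i => Nat.casesOn i (A (u 0)) (fun i => B (u i))
  have hW0 : W 0 = A (u 0) := rfl
  have hWs : ∀ i, W (i + 1) = B (u i) := fun _ => rfl
  have hAW : ∀ i ≤ m, A (u i) = W i := by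
    intro i hi
    cases i with
    | zero => rfl
    | succ i => exact hu1 i (by omega)
  -- dual basis
  have hone : ∀ i ≤ m + 1, G i (W i) = 1 := by
    intro i
    induction i with
    | zero => intro _; rw [hW0, hG0, hu0, hg2]
    | succ i ih =>
      intro hi
      rw [hWs, hG1 i (by omega), hAW i (by omega)]
      exact ih (by omega)
  have hz : ∀ i t, i + 1 + t ≤ m + 1 → G i (W (i + 1 + t)) = 0 := by
    intro i
    induction i with
    | zero =>
      intro t ht
      rw [show 0 + 1 + t = t + 1 by omega, hWs]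
      exact hGB _
    | succ i ih =>
      intro t ht
      rw [show i + 1 + 1 + t = (i + 1 + t) + 1 by omega, hWs, hG1 i (by omega), hAW _ (by omega)]
      exact ih t (by omega)
  refine ⟨u, W, hAW, fun i _ => (hWs i).symm, ?_, ?_⟩
  · apply indep_of_triangular _ (fun i => G i)
    · intro i; exact hone i (by have := i.2; omega)
    · intro i j hij
      rw [Fin.lt_def] at hij
      have := hz i (j - i - 1) (by have := j.2; omega)
      rwa [show (i : ℕ) + 1 + (j - i - 1) = j by omega] at this
  · intro v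
    obtain ⟨v, rfl⟩ := hsurj v
    refine ⟨fun i => G i (A v), fun i => G i v, ?_⟩
    rw [he, Fin.sum_univ_castSucc (n := m + 1), Finset.sum_range, Finset.sum_add_distrib,
      add_assoc]
    congr 1
    congr 1
    apply Finset.sum_congr rfl
    intro i _
    rw [hAW i (by have := i.2; omega)]
    rfl

end Pool.Agent.Helper25.Kro
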