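import Pool.Agent.Helper25.Kro.List

/-!
# The classification of rigid systems over the field with two elements with small core
-/

namespace Pool.Agent.Helper25.Kro

open Module LinearMap Pool.Agent.Helper25.Kron

/-- The list of pencils. -/
def Listed {V : Type*} [AddCommGroup V] [Module (ZMod 2) V] (A B : V →ₗ[ZMod 2] V) : Prop :=
  (∃ n ≤ 5, Iso A B (mU (ZMod 2) n (n + 1)) (mD (ZMod 2) n (n + 1))) ∨
  (∃ n, 1 ≤ n ∧ n ≤ 7 ∧ Iso A B (mD (ZMod 2) (n + 1) n) (mL (ZMod 2) (n + 1) n)) ∨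
  (∃ n, 1 ≤ n ∧ n ≤ 6 ∧ Iso A B (comp (0 : Fin n → ZMod 2)) 1) ∨
  Iso A B (comp (![1, 1] : Fin 2 → ZMod 2)) 1 ∨
  Iso A B (comp (![1, 1, 0] : Fin 3 → ZMod 2)) 1 ∨
  Iso A B (comp (![1, 1, 0, 0] : Fin 4 → ZMod 2)) 1 ∨
  Iso A B (comp (![1, 0, 1, 0] : Fin 4 → ZMod 2)) 1 ∨
  Iso A B (comp (![1, 0, 1, 0, 0] : Fin 5 → ZMod 2)) 1

variable {V : Type*} [AddCommGroup V] [Module (ZMod 2) V] {A B C : V →ₗ[ZMod 2] V}

lemma Perm.rot {A' B' : V →ₗ[ZMod 2] V} (h : Perm B C A A' B') : Perm A B C A' B' := by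
  unfold Perm at *
  tauto

variable [FiniteDimensional (ZMod 2) V]

lemma Iso.finrank_eq {n m : ℕ} {M N : Matrix (Fin m) (Fin n) (ZMod 2)} (h : Iso A B M N) :
    finrank (ZMod 2) V = n + m := by
  obtain ⟨f, -, -⟩ := h
  rw [← f.finrank_eq]
  simp

/-- If the kernel of `A` is larger than `ker A ⊓ ker B`, we are in the regular or preinjective
case. -/
lemma iso_of_ker (h : Sys A B C) (hK : ¬ ker A ≤ ker B) :
    (∃ n, Iso A B (comp (0 : Fin (n + 1) → ZMod 2)) 1) ∨
    (∃ m, Iso A B (mU (ZMod 2) (m + 1) (m + 2)) (mD (ZMod 2) (m + 1) (m + 2))) := by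
  by_cases hr : ∃ n, ¬ sq B A ⊥ n ≤ range A
  · classical
    have h0 : Nat.find hr ≠ 0 := by
      intro h0
      have := Nat.find_spec hr
      rw [h0] at this
      exact this bot_le
    obtain ⟨n, hn⟩ := Nat.exists_eq_succ_of_ne_zero h0
    have h1 := Nat.find_spec hr
    rw [hn] at h1
    have h2 : sq B A ⊥ n ≤ range A := by
      by_contra h2
      have := Nat.find_min' hr h2
      omega
    left
    exact ⟨n, regular_iso h n h2 h1⟩
  · push Not at hr
    obtain ⟨j, hj⟩ := exists_sq_bot B A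
    set D := sq B A ⊥ j with hD
    have hj' : (D.comap A).map B = D := hj
    have hDA : D ≤ range A := hr j
    have hAD : (D.comap A).map A = D := by
      rw [Submodule.map_comap_eq, inf_eq_right.2 hDA]
    have e1 := finrank_map_add A (D.comap A)
    have e2 := finrank_map_add B (D.comap A)
    rw [hAD] at e1
    rw [hj'] at e2
    have e3 : (D.comap A) ⊓ ker A = ker A := by
      rw [inf_eq_right]
      intro x hx
      rw [LinearMap.mem_ker] at hx
      rw [Submodule.mem_comap, hx]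
      exact D.zero_mem
    rw [e3] at e1
    have h4 : ∃ v, B v = 0 ∧ A v ∈ D ∧ A v ≠ 0 := by
      by_contra hcon
      push Not at hcon
      have h5 : (D.comap A) ⊓ ker B ≤ ker A ⊓ ker B := by
        rintro x ⟨hx1, hx2⟩
        exact ⟨hcon x hx2 hx1, hx2⟩
      have h6 : ker A ⊓ ker B < ker A := by
        refine lt_of_le_of_ne inf_le_left ?_
        intro heq
        exact hK (inf_eq_left.1 heq)
      have h7 := Submodule.finrank_mono h5
      have h8 := Submodule.finrank_lt_finrank_of_lt h6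
      omega
    obtain ⟨v, hv1, hv2, hv3⟩ := h4
    have key : ∀ j i, ∀ w, w ≠ 0 → w ∈ sq B A ⊥ j → w ∈ sq A B ⊥ i →
        ∃ u i', A u = 0 ∧ B u ≠ 0 ∧ B u ∈ sq A B ⊥ i' := by
      intro j
      induction j with
      | zero =>
        intro i w hw hw1
        exact absurd ((Submodule.mem_bot (ZMod 2)).1 hw1) hw
      | succ j ih =>
        rintro i w hw ⟨x, hx, rfl⟩ hw2
        by_cases hAx : A x = 0
        · exact ⟨x, i, hAx, hw, hw2⟩
        · exact ih (i + 1) (A x) hAx hx ⟨x, hw2, rfl⟩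
    obtain ⟨u, i', hu1, hu2, hu3⟩ := key j 1 (A v) hv3 hv2 ⟨v, by
      show B v ∈ (⊥ : Submodule (ZMod 2) V)
      rw [hv1]; exact Submodule.zero_mem _, rfl⟩
    classical
    let P : ℕ → Prop := fun i => ∃ u, A u = 0 ∧ B u ≠ 0 ∧ B u ∈ sq A B ⊥ i
    have hP : ∃ i, P i := ⟨i', u, hu1, hu2, hu3⟩
    have h0 : Nat.find hP ≠ 0 := by
      intro h0
      obtain ⟨u, hu1, hu2, hu3⟩ := Nat.find_spec hP
      rw [h0] at hu3
      exact hu2 ((Submodule.mem_bot (ZMod 2)).1 hu3)
    obtain ⟨m, hm⟩ := Nat.exists_eq_succ_of_ne_zero h0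
    obtain ⟨u, hu1, hu2, hu3⟩ := Nat.find_spec hP
    rw [hm] at hu3
    right
    exact ⟨m, preinjective_iso h m u hu1 hu3 (by
      intro h10
      have := Nat.find_min' hP (m := m) ⟨u, hu1, hu2, h10⟩
      omega)⟩

lemma listed_of_ker (h : Sys A B C) (hK : ¬ ker A ≤ ker B)
    (hcore : finrank (ZMod 2) (range A ⊓ range B ⊓ range C : Submodule (ZMod 2) V) ≤ 5) :
    Listed A B := by
  have hd := h.dim_of_ker hK
  rcases iso_of_ker h hK with ⟨n, hn⟩ | ⟨m, hm⟩
  · have h1 := hn.finrank_eq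
    exact Or.inr (Or.inr (Or.inl ⟨n + 1, by omega, by omega, hn⟩))
  · have h1 := hm.finrank_eq
    exact Or.inl ⟨m + 1, by omega, hm⟩

/-- The classification. -/
theorem classify (h : Sys A B C) (hV : 0 < finrank (ZMod 2) V)
    (hcore : finrank (ZMod 2) (range A ⊓ range B ⊓ range C : Submodule (ZMod 2) V) ≤ 5) :
    ∃ A' B', Perm A B C A' B' ∧ Listed A' B' := by
  rcases Nat.lt_or_ge 1 (finrank (ZMod 2) V) with hd | hd
  swap
  · -- dimension one
    have h1 : finrank (ZMod 2) V = 1 := by omega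
    have hzero : ∀ T : V →ₗ[ZMod 2] V, (∀ v, T (T v) = 0) → ∀ v, T v = 0 := by
      intro T hT
      have h2 := LinearMap.finrank_range_add_finrank_ker T
      have h3 : range T ≤ ker T := by
        rintro _ ⟨v, rfl⟩
        exact hT v
      have h4 := Submodule.finrank_mono h3
      have h5 : finrank (ZMod 2) (range T) = 0 := by omega
      rw [Submodule.finrank_eq_zero, LinearMap.range_eq_bot] at h5
      intro v
      rw [h5]; rfl
    have hA := hzero A h.AA
    have hB := hzero B h.BB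
    refine ⟨A, B, Or.inl ⟨rfl, rfl⟩, Or.inl ⟨0, by omega, ?_⟩⟩
    have h6 : finrank (ZMod 2) ((Fin (0 + 1) → ZMod 2) × (Fin 0 → ZMod 2)) =
        finrank (ZMod 2) V := by
      rw [h1]; simp
    refine ⟨LinearEquiv.ofFinrankEq _ _ h6, ?_, ?_⟩
    · intro a b
      rw [hA]
      symm
      rw [LinearEquiv.map_eq_zero_iff]
      exact Prod.ext rfl (Subsingleton.elim _ _)
    · intro a b
      rw [hB]
      symm
      rw [LinearEquiv.map_eq_zero_iff]
      exact Prod.ext rfl (Subsingleton.elim _ _)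
  have hS : ker A ⊓ ker B ≤ range A ⊔ range B := h.ker_le hd
  by_cases hA : ker A ≤ ker B
  swap
  · exact ⟨A, B, Or.inl ⟨rfl, rfl⟩, listed_of_ker h hA hcore⟩
  by_cases hB : ker B ≤ ker C
  swap
  · have e : range B ⊓ range C ⊓ range A = range A ⊓ range B ⊓ range C := by
      rw [inf_comm, ← inf_assoc]
    exact ⟨B, C, Or.inr (Or.inr (Or.inl ⟨rfl, rfl⟩)), listed_of_ker h.rot hB (by rwa [e])⟩
  by_cases hC : ker C ≤ ker A
  swap
  · have e : range C ⊓ range A ⊓ range B = range A ⊓ range B ⊓ range C := by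
      rw [inf_assoc, inf_comm]
    exact ⟨C, A, Or.inr (Or.inr (Or.inr (Or.inr (Or.inl ⟨rfl, rfl⟩)))),
      listed_of_ker h.rot.rot hC (by rwa [e])⟩
  -- all kernels are equal to `W = range A ⊔ range B`
  have kA : ker A = range A ⊔ range B := le_antisymm
    (le_trans (le_inf le_rfl hA) hS) (h.sup_le_ker.trans inf_le_left)
  have kB : ker B = range A ⊔ range B := le_antisymm
    (le_trans (le_inf (hB.trans hC) le_rfl) hS) (h.sup_le_ker.trans inf_le_right)
  have kC : ker C = range A ⊔ range B := le_antisymm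
    (hC.trans kA.le) (kB.symm.le.trans hB)
  have dA := LinearMap.finrank_range_add_finrank_ker A
  have dB := LinearMap.finrank_range_add_finrank_ker B
  have dC := LinearMap.finrank_range_add_finrank_ker C
  rw [kA] at dA
  rw [kB] at dB
  rw [kC] at dC
  by_cases hWB : range A ⊔ range B ≤ range B
  · -- bijective maps
    have rB : range B = range A ⊔ range B := le_antisymm le_sup_right hWB
    rw [← rB] at dA dB dC
    have rA : range A = range B :=
      Submodule.eq_of_le_of_finrank_eq (le_sup_left.trans hWB) (by omega)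
    have rC : range C = range B :=
      Submodule.eq_of_le_of_finrank_eq (h.range_C_le.trans hWB) (by omega)
    rw [rA, rC, inf_idem, inf_idem] at hcore
    obtain ⟨n, q, hI, hn1, hn2⟩ := bijective_iso h kA kB hWB (by
      intro h0
      rw [h0, finrank_bot] at dB
      omega)
    rw [← rB] at hn2
    have hA' : ∀ a, (comp q).mulVec a = 0 → a = 0 := by
      intro a ha
      obtain ⟨f, f1, f2⟩ := hI
      have h1 : A (f (a, 0)) = 0 := by rw [f1, ha]; exact map_zero f
      have h2 : f (a, 0) ∈ ker B := hA h1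
      rw [LinearMap.mem_ker, f2, Matrix.one_mulVec, LinearEquiv.map_eq_zero_iff] at h2
      exact congrArg Prod.snd h2
    have hC' : ∀ a, (comp q + 1).mulVec a = 0 → a = 0 := by
      intro a ha
      obtain ⟨f, f1, f2⟩ := hI.rot h
      have h1 : C (f (a, 0)) = 0 := by rw [f2, ha]; exact map_zero f
      have h2 : f (a, 0) ∈ ker B := (hC.trans hA) h1
      rw [LinearMap.mem_ker, f1, Matrix.one_mulVec, LinearEquiv.map_eq_zero_iff] at h2
      exact congrArg Prod.snd h2
    obtain rfl | rfl | rfl | rfl | rfl : n = 1 ∨ n = 2 ∨ n = 3 ∨ n = 4 ∨ n = 5 := by omega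
    · exact (list1 q hA' hC').elim
    · obtain ⟨A', B', hp, hi⟩ := step2 h q hI hA' hC'
      exact ⟨A', B', hp, Or.inr (Or.inr (Or.inr (Or.inl hi)))⟩
    · obtain ⟨A', B', hp, hi⟩ := step3 h q hI hA' hC'
      exact ⟨A', B', hp, Or.inr (Or.inr (Or.inr (Or.inr (Or.inl hi))))⟩
    · obtain ⟨A', B', hp, hi | hi⟩ := step4 h q hI hA' hC'
      · exact ⟨A', B', hp, Or.inr (Or.inr (Or.inr (Or.inr (Or.inr (Or.inl hi)))))⟩
      · exact ⟨A', B', hp, Or.inr (Or.inr (Or.inr (Or.inr (Or.inr (Or.inr (Or.inl hi))))))⟩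
    · obtain ⟨A', B', hp, hi⟩ := step5 h q hI hA' hC'
      exact ⟨A', B', hp, Or.inr (Or.inr (Or.inr (Or.inr (Or.inr (Or.inr (Or.inr hi))))))⟩
  -- the preprojective case
  have hex : ∃ j, ¬ range A ⊔ range B ≤ range B ⊔ sq A B ⊤ j := by
    obtain ⟨j, hj⟩ := exists_sq_top A B
    refine ⟨j, ?_⟩
    set D := sq A B ⊤ j with hD
    have hj' : (D.comap B).map A = D := hj
    have e1 := finrank_map_add A (D.comap B)
    have e2 := finrank_map_add B (D.comap B)
    rw [hj'] at e1
    rw [Submodule.map_comap_eq] at e2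
    have e3 : (D.comap B) ⊓ ker B = ker B := by
      rw [inf_eq_right]
      intro x hx
      rw [LinearMap.mem_ker] at hx
      rw [Submodule.mem_comap, hx]
      exact D.zero_mem
    have e4 : (D.comap B) ⊓ ker A = ker B := by rw [kA, ← kB, e3]
    rw [e3] at e2
    rw [e4] at e1
    have e5 : range B ⊓ D = D := by
      apply Submodule.eq_of_le_of_finrank_eq inf_le_right
      omega
    have e6 : D ≤ range B := inf_eq_right.1 e5
    rw [sup_eq_left.2 e6]
    exact hWB
  classical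
  have h0 : Nat.find hex ≠ 0 := by
    intro h0
    have := Nat.find_spec hex
    rw [h0] at this
    apply this
    show _ ≤ range B ⊔ ⊤
    rw [sup_top_eq]
    exact le_top
  have h1 : Nat.find hex ≠ 1 := by
    intro h1
    have := Nat.find_spec hex
    rw [h1] at this
    apply this
    have e : sq A B ⊤ 1 = range A := by
      show (Submodule.comap B ⊤).map A = _
      rw [Submodule.comap_top, Submodule.map_top]
    rw [e, sup_comm]
  obtain ⟨m, hm⟩ : ∃ m, Nat.find hex = m + 2 := ⟨Nat.find hex - 2, by omega⟩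
  have h2 := Nat.find_spec hex
  rw [hm] at h2
  have h3 : range A ⊔ range B ≤ range B ⊔ sq A B ⊤ (m + 1) := by
    by_contra h4
    have := Nat.find_min' hex h4
    omega
  obtain ⟨hI, hw⟩ := preprojective_iso h m h3 h2
  refine ⟨A, B, Or.inl ⟨rfl, rfl⟩, Or.inr (Or.inl ⟨m + 1, by omega, ?_, hI⟩)⟩
  have h4 := hI.finrank_eq
  rcases h.types with h | h | h | h | h <;> omega

end Pool.Agent.Helper25.Kro
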