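import Mathlib

/-!
# Rigid endomorphisms are cyclic
-/

namespace Pool.Agent.Helper25.Kro

open Module LinearMap Polynomial
open scoped DirectSum

variable {k W : Type*} [Field k] [AddCommGroup W] [Module k W]

/-- If every endomorphism that commutes with `S` and fixes a nonzero vector is injective, then
`W` is a cyclic `k[S]`-module. -/
lemma exists_cyclic [FiniteDimensional k W] [Nontrivial W] (S : W →ₗ[k] W)
    (rigid : ∀ e : W →ₗ[k] W, (∀ w, e (S w) = S (e w)) → (∃ w, w ≠ 0 ∧ e w = w) →
      Function.Injective e) :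
    ∃ w0 : W, ∀ w, ∃ p : k[X], w = aeval S p w0 := by
  classical
  have htor : Module.IsTorsion k[X] (AEval' S) := Module.AEval.isTorsion_of_finiteDimensional k W S
  obtain ⟨ι, _, p, _, e, ⟨l⟩⟩ := Module.equiv_directSum_of_isTorsion htor
  obtain ⟨x, hx⟩ := exists_ne (0 : W)
  have hlx : l (AEval'.of S x) ≠ 0 := by
    intro h0
    apply hx
    rw [← map_zero l] at h0
    exact (AEval'.of S).injective ((l.injective h0).trans (map_zero _).symm)
  obtain ⟨i0, hi0⟩ : ∃ i, (l (AEval'.of S x)) i ≠ 0 := by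
    by_contra hcon
    push Not at hcon
    exact hlx (DFinsupp.ext hcon)
  let P : AEval' S →ₗ[k[X]] AEval' S :=
    l.symm.toLinearMap ∘ₗ (DirectSum.lof k[X] ι _ i0) ∘ₗ (DirectSum.component k[X] ι _ i0) ∘ₗ
      l.toLinearMap
  have hP : ∀ m, P m = l.symm (DirectSum.lof k[X] ι _ i0 (l m i0)) := fun m => rfl
  have hPP : ∀ m, P (P m) = P m := by
    intro m
    rw [hP (P m), hP m, l.apply_symm_apply]
    congr 2
    exact DirectSum.component.lof_self k[X] i0 _
  let E : W →ₗ[k] W := (AEval'.of S).symm.toLinearMap ∘ₗ (P.restrictScalars k) ∘ₗ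
    (AEval'.of S).toLinearMap
  have hE : ∀ w, E w = (AEval'.of S).symm (P (AEval'.of S w)) := fun w => rfl
  have hEinj := rigid E (by
    intro w
    rw [hE, hE, ← AEval'.X_smul_of, map_smul, AEval'.of_symm_X_smul])
    ⟨(AEval'.of S).symm (P (AEval'.of S x)), by
      intro h0
      apply hi0
      rw [LinearEquiv.map_eq_zero_iff, hP, LinearEquiv.map_eq_zero_iff] at h0
      have := congrArg (DirectSum.component k[X] ι _ i0) h0
      rwa [DirectSum.component.lof_self, map_zero] at this, by
      rw [hE, LinearEquiv.apply_symm_apply, hPP]⟩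
  have hfix : ∀ m, P m = m := by
    intro m
    have h1 : E ((AEval'.of S).symm (P m)) = E ((AEval'.of S).symm m) := by
      rw [hE, hE, LinearEquiv.apply_symm_apply, LinearEquiv.apply_symm_apply, hPP]
    exact (AEval'.of S).symm.injective (hEinj h1)
  refine ⟨(AEval'.of S).symm (l.symm (DirectSum.lof k[X] ι _ i0 (Submodule.Quotient.mk 1))), ?_⟩
  intro w
  obtain ⟨q, hq⟩ := Submodule.Quotient.mk_surjective _ (l (AEval'.of S w) i0)
  refine ⟨q, ?_⟩
  have h1 := hfix (AEval'.of S w)
  rw [hP, ← hq] at h1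
  have h2 : (Submodule.Quotient.mk q : k[X] ⧸ k[X] ∙ p i0 ^ e i0) =
      q • Submodule.Quotient.mk 1 := by
    rw [← Submodule.Quotient.mk_smul, smul_eq_mul, mul_one]
  rw [h2, map_smul, map_smul] at h1
  have h3 := congrArg (AEval'.of S).symm h1
  rw [LinearEquiv.symm_apply_apply] at h3
  rw [← h3]
  rfl

/-- The basis of powers. -/
lemma exists_pow_basis [FiniteDimensional k W] (S : W →ₗ[k] W) (w0 : W)
    (hcyc : ∀ w, ∃ p : k[X], w = aeval S p w0) :
    ∃ (n : ℕ) (q : Fin n → k), LinearIndependent k (fun i : Fin n => (S ^ (i : ℕ)) w0) ∧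
      (S ^ n) w0 = ∑ i : Fin n, q i • (S ^ (i : ℕ)) w0 ∧
      ∀ w, ∃ b : Fin n → k, w = ∑ i : Fin n, b i • (S ^ (i : ℕ)) w0 := by
  classical
  let L : ℕ → Submodule k W := fun n => Submodule.span k (Set.range fun i : Fin n => (S ^ (i : ℕ)) w0)
  have hmem : ∀ n i, i < n → (S ^ i) w0 ∈ L n := fun n i hi =>
    Submodule.subset_span ⟨⟨i, hi⟩, rfl⟩
  have hmono : Monotone L := by
    apply monotone_nat_of_le_succ
    intro n
    rw [Submodule.span_le]
    rintro _ ⟨i, rfl⟩
    exact hmem _ _ (by have := i.2; omega)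
  obtain ⟨n0, hn0⟩ := WellFoundedGT.monotone_chain_condition (⟨L, hmono⟩ : ℕ →o Submodule k W)
  have hex : ∃ n, (S ^ n) w0 ∈ L n := by
    refine ⟨n0, ?_⟩
    have h1 : L n0 = L (n0 + 1) := hn0 (n0 + 1) (by omega)
    rw [h1]
    exact hmem _ _ (by omega)
  set n := Nat.find hex with hn
  have hspec : (S ^ n) w0 ∈ L n := Nat.find_spec hex
  have hind : ∀ j ≤ n, LinearIndependent k (fun i : Fin j => (S ^ (i : ℕ)) w0) := by
    intro j
    induction j with
    | zero => intro _; exact linearIndependent_empty_type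
    | succ j ih =>
      intro hj
      rw [linearIndependent_fin_succ']
      exact ⟨ih (by omega), fun h => Nat.find_min hex (show j < Nat.find hex by omega) h⟩
  have hS : ∀ w ∈ L n, S w ∈ L n := by
    intro w hw
    induction hw using Submodule.span_induction with
    | mem x hx =>
      obtain ⟨i, rfl⟩ := hx
      show S ((S ^ (i : ℕ)) w0) ∈ L n
      have h1 : S ((S ^ (i : ℕ)) w0) = (S ^ ((i : ℕ) + 1)) w0 := by
        rw [pow_succ']; rfl
      rw [h1]
      rcases Nat.lt_or_ge ((i : ℕ) + 1) n with h2 | h2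
      · exact hmem _ _ h2
      · have h3 : (i : ℕ) + 1 = n := by have := i.2; omega
        rw [h3]
        exact hspec
    | zero => rw [map_zero]; exact Submodule.zero_mem _
    | add x y _ _ hx hy => rw [map_add]; exact Submodule.add_mem _ hx hy
    | smul a x _ hx => rw [map_smul]; exact Submodule.smul_mem _ _ hx
  have hall : ∀ m, (S ^ m) w0 ∈ L n := by
    intro m
    induction m with
    | zero =>
      rcases Nat.eq_zero_or_pos n with h0 | h0
      · rw [h0] at hspec ⊢
        exact hspec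
      · exact hmem _ _ h0
    | succ m ih =>
      have h1 : (S ^ (m + 1)) w0 = S ((S ^ m) w0) := by rw [pow_succ']; rfl
      rw [h1]
      exact hS _ ih
  obtain ⟨q, hq⟩ := (Submodule.mem_span_range_iff_exists_fun k).1 hspec
  refine ⟨n, q, hind n le_rfl, hq.symm, ?_⟩
  intro w
  obtain ⟨p, rfl⟩ := hcyc w
  have h1 : aeval S p w0 ∈ L n := by
    rw [aeval_eq_sum_range, LinearMap.sum_apply]
    exact Submodule.sum_mem _ (fun i _ => Submodule.smul_mem _ _ (hall i))
  obtain ⟨b, hb⟩ := (Submodule.mem_span_range_iff_exists_fun k).1 h1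
  exact ⟨b, hb.symm⟩

end Pool.Agent.Helper25.Kro
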