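import Pool.Agent.Helper25.Kro.Chains
import Pool.Agent.Helper25.Kro.Cyclic

/-!
# Normal forms of rigid systems
-/

namespace Pool.Agent.Helper25.Kro

open Module LinearMap Pool.Agent.Helper25.Kron

/-- The `m × n` matrix with entries `1` at the places `(j, i)`, `j = i`. -/
def mD (k : Type*) [Field k] (m n : ℕ) : Matrix (Fin m) (Fin n) k :=
  fun j i => if (j : ℕ) = i then 1 else 0

/-- The `m × n` matrix with entries `1` at the places `(j, i)`, `j = i + 1`. -/
def mL (k : Type*) [Field k] (m n : ℕ) : Matrix (Fin m) (Fin n) k :=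
  fun j i => if (j : ℕ) = i + 1 then 1 else 0

/-- The `m × n` matrix with entries `1` at the places `(j, i)`, `j + 1 = i`. -/
def mU (k : Type*) [Field k] (m n : ℕ) : Matrix (Fin m) (Fin n) k :=
  fun j i => if (j : ℕ) + 1 = i then 1 else 0

/-- The companion matrix of `x ^ n - ∑ q i x ^ i`. -/
def comp {k : Type*} [Field k] {n : ℕ} (q : Fin n → k) : Matrix (Fin n) (Fin n) k :=
  fun j i => if (i : ℕ) + 1 = n then q j else if (j : ℕ) = i + 1 then 1 else 0

variable {k V : Type*} [Field k] [AddCommGroup V] [Module k V] {A B C : V →ₗ[k] V}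

lemma sum_ite_nat {m : ℕ} (f : ℕ → V) (i : ℕ) (hi : i < m) :
    ∑ j : Fin m, (if (j : ℕ) = i then (1 : k) else 0) • f j = f i := by
  rw [Finset.sum_eq_single ⟨i, hi⟩]
  · simp
  · intro j _ hj
    have : (j : ℕ) ≠ i := fun h => hj (Fin.ext h)
    simp [this]
  · intro h; exact absurd (Finset.mem_univ _) h

lemma sum_ite_nat_zero {m : ℕ} (f : ℕ → V) (i : ℕ) (hi : m ≤ i) :
    ∑ j : Fin m, (if (j : ℕ) = i then (1 : k) else 0) • f j = 0 := by
  apply Finset.sum_eq_zero
  intro j _
  have : (j : ℕ) ≠ i := by have := j.2; omega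
  simp [this]

lemma mD_mulVec {m n : ℕ} (a : Fin n → k) (j : Fin m) (hj : (j : ℕ) < n) :
    (mD k m n).mulVec a j = a ⟨j, hj⟩ := by
  simp only [Matrix.mulVec, dotProduct, mD]
  rw [Finset.sum_eq_single ⟨j, hj⟩]
  · simp
  · intro i _ hi
    have : (j : ℕ) ≠ i := fun h => hi (Fin.ext h.symm)
    simp [this]
  · intro h; exact absurd (Finset.mem_univ _) h

lemma mU_mulVec {m n : ℕ} (a : Fin n → k) (j : Fin m) (hj : (j : ℕ) + 1 < n) :
    (mU k m n).mulVec a j = a ⟨j + 1, hj⟩ := by
  simp only [Matrix.mulVec, dotProduct, mU]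
  rw [Finset.sum_eq_single ⟨j + 1, hj⟩]
  · simp
  · intro i _ hi
    have : (j : ℕ) + 1 ≠ i := fun h => hi (Fin.ext h.symm)
    simp [this]
  · intro h; exact absurd (Finset.mem_univ _) h

variable [FiniteDimensional k V]

/-- The regular nilpotent case. -/
lemma regular_iso (h : Sys A B C) (n : ℕ) (h1 : sq B A ⊥ n ≤ range A)
    (h2 : ¬ sq B A ⊥ (n + 1) ≤ range A) : Iso A B (comp (0 : Fin (n + 1) → k)) 1 := by
  obtain ⟨u, hu1, hu2, hind, hspan⟩ := regular_chain h n h1 h2
  refine Iso.mk (fun i : Fin (n + 1) => u i) (fun i : Fin (n + 1) => B (u i)) hind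
    (fun j => h.AB _) (fun j => h.BB _) ?_ ?_ ?_ hspan
  · intro i
    show A (u i) = ∑ j : Fin (n + 1), comp 0 j i • B (u j)
    rcases Nat.lt_or_ge ((i : ℕ) + 1) (n + 1) with h3 | h3
    · have e : ∀ j : Fin (n + 1), comp (0 : Fin (n + 1) → k) j i • B (u j) =
          (if (j : ℕ) = (i : ℕ) + 1 then (1 : k) else 0) • (fun t : ℕ => B (u t)) j := by
        intro j
        have : ¬ (i : ℕ) + 1 = n + 1 := by omega
        simp only [comp, this, if_false]
      rw [Finset.sum_congr rfl (fun j _ => e j), sum_ite_nat (k := k) (fun t => B (u t)) _ h3,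
        hu1 i (by omega)]
    · have h4 : (i : ℕ) = n := by have := i.2; omega
      rw [h4, hu2, Finset.sum_eq_zero]
      intro j _
      simp [comp, h4]
  · intro i
    show B (u i) = ∑ j : Fin (n + 1), (1 : Matrix (Fin (n + 1)) (Fin (n + 1)) k) j i • B (u j)
    rw [Finset.sum_eq_single i]
    · simp
    · intro j _ hj
      simp [Matrix.one_apply_ne hj]
    · intro h; exact absurd (Finset.mem_univ _) h
  · intro a _ ha
    rwa [Matrix.one_mulVec] at ha

/-- The preinjective case. -/
lemma preinjective_iso (h : Sys A B C) (m : ℕ) (u0 : V) (hu0A : A u0 = 0)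
    (h1 : B u0 ∈ sq A B ⊥ (m + 1)) (h2 : B u0 ∉ sq A B ⊥ m) :
    Iso A B (mU k (m + 1) (m + 2)) (mD k (m + 1) (m + 2)) := by
  obtain ⟨x, hx1, hx2, hx3, hind, hspan⟩ := preinjective_chain h m u0 hu0A h1 h2
  refine Iso.mk (fun i : Fin (m + 2) => x i) (fun i : Fin (m + 1) => B (x i)) hind
    (fun j => h.AB _) (fun j => h.BB _) ?_ ?_ ?_ hspan
  · intro i
    show A (x i) = ∑ j : Fin (m + 1), mU k (m + 1) (m + 2) j i • B (x j)
    rcases i with ⟨i, hi⟩
    cases i with
    | zero =>
      show A (x 0) = _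
      rw [hx1, Finset.sum_eq_zero]
      intro j _
      simp [mU]
    | succ i =>
      have e : ∀ j : Fin (m + 1), mU k (m + 1) (m + 2) j ⟨i + 1, hi⟩ • B (x j) =
          (if (j : ℕ) = i then (1 : k) else 0) • (fun t : ℕ => B (x t)) j := by
        intro j
        simp only [mU, Nat.add_right_cancel_iff]
      rw [Finset.sum_congr rfl (fun j _ => e j),
        sum_ite_nat (k := k) (fun t => B (x t)) _ (by omega)]
      exact hx2 i (by omega)
  · intro i
    show B (x i) = ∑ j : Fin (m + 1), mD k (m + 1) (m + 2) j i • B (x j)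
    have e : ∀ j : Fin (m + 1), mD k (m + 1) (m + 2) j i • B (x j) =
        (if (j : ℕ) = (i : ℕ) then (1 : k) else 0) • (fun t : ℕ => B (x t)) j := fun j => rfl
    rw [Finset.sum_congr rfl (fun j _ => e j)]
    rcases Nat.lt_or_ge (i : ℕ) (m + 1) with h3 | h3
    · rw [sum_ite_nat (k := k) (fun t => B (x t)) _ h3]
    · rw [sum_ite_nat_zero (k := k) (fun t => B (x t)) _ h3]
      have h4 : (i : ℕ) = m + 1 := by have := i.2; omega
      rw [h4, hx3]
  · intro a ha1 ha2
    funext i
    rcases i with ⟨i, hi⟩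
    rcases Nat.lt_or_ge i (m + 1) with h3 | h3
    · have := congrFun ha2 ⟨i, h3⟩
      rwa [mD_mulVec a ⟨i, h3⟩ hi] at this
    · have h4 : i = m + 1 := by omega
      subst h4
      have := congrFun ha1 ⟨m, by omega⟩
      rwa [mU_mulVec a ⟨m, by omega⟩ hi] at this

/-- The preprojective case. -/
lemma preprojective_iso (h : Sys A B C) (m : ℕ)
    (h1 : range A ⊔ range B ≤ range B ⊔ sq A B ⊤ (m + 1))
    (h2 : ¬ range A ⊔ range B ≤ range B ⊔ sq A B ⊤ (m + 2)) :
    Iso A B (mD k (m + 2) (m + 1)) (mL k (m + 2) (m + 1)) ∧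
      m + 2 ≤ finrank k (range A ⊔ range B : Submodule k V) := by
  obtain ⟨u, W, hA, hB, hind, hspan⟩ := preprojective_chain h m h1 h2
  have hWm : ∀ j : Fin (m + 2), W j ∈ range A ⊔ range B := by
    rintro ⟨j, hj⟩
    rcases Nat.lt_or_ge j (m + 1) with h3 | h3
    · rw [← hA j (by omega)]
      exact Submodule.mem_sup_left ⟨_, rfl⟩
    · have h4 : j = m + 1 := by omega
      subst h4
      rw [← hB m le_rfl]
      exact Submodule.mem_sup_right ⟨_, rfl⟩
  refine ⟨?_, ?_⟩
  · refine Iso.mk (fun i : Fin (m + 1) => u i) (fun i : Fin (m + 2) => W i) hind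
      (fun j => (h.sup_le_ker (hWm j)).1) (fun j => (h.sup_le_ker (hWm j)).2) ?_ ?_ ?_ hspan
    · intro i
      show A (u i) = ∑ j : Fin (m + 2), mD k (m + 2) (m + 1) j i • W j
      have e : ∀ j : Fin (m + 2), mD k (m + 2) (m + 1) j i • W j =
          (if (j : ℕ) = (i : ℕ) then (1 : k) else 0) • W j := fun j => rfl
      rw [Finset.sum_congr rfl (fun j _ => e j), sum_ite_nat (k := k) W _ (by
        have := i.2; omega), hA i (by have := i.2; omega)]
    · intro i
      show B (u i) = ∑ j : Fin (m + 2), mL k (m + 2) (m + 1) j i • W j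
      have e : ∀ j : Fin (m + 2), mL k (m + 2) (m + 1) j i • W j =
          (if (j : ℕ) = (i : ℕ) + 1 then (1 : k) else 0) • W j := fun j => rfl
      rw [Finset.sum_congr rfl (fun j _ => e j), sum_ite_nat (k := k) W _ (by
        have := i.2; omega), hB i (by have := i.2; omega)]
    · intro a ha1 _
      funext i
      have hi : (i : ℕ) < m + 2 := by have := i.2; omega
      have := congrFun ha1 ⟨i, hi⟩
      rwa [mD_mulVec a (⟨i, hi⟩ : Fin (m + 2)) i.2] at this
  · have h3 : LinearIndependent k (fun j : Fin (m + 2) =>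
        (⟨W j, hWm j⟩ : (range A ⊔ range B : Submodule k V))) := by
      apply LinearIndependent.of_comp (range A ⊔ range B : Submodule k V).subtype
      exact hind
    have := h3.fintype_card_le_finrank
    simpa using this

/-- The case of bijective maps. -/
lemma bijective_iso (h : Sys A B C) (kA : ker A = range A ⊔ range B)
    (kB : ker B = range A ⊔ range B) (hWB : range A ⊔ range B ≤ range B)
    (hnt : range B ≠ ⊥) :
    ∃ (n : ℕ) (q : Fin n → k), Iso A B (comp q) 1 ∧ 1 ≤ n ∧
      n = finrank k (range A ⊔ range B : Submodule k V) := by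
  have rB : range B = range A ⊔ range B := le_antisymm le_sup_right hWB
  have kB' : ker B = range B := kB.trans rB.symm
  have kA' : ker A = range B := kA.trans rB.symm
  obtain ⟨s, hs⟩ := LinearMap.exists_rightInverse_of_surjective B.rangeRestrict
    B.range_rangeRestrict
  have hBs : ∀ w : range B, B (s w) = w := by
    intro w
    have := LinearMap.congr_fun hs w
    exact congrArg Subtype.val this
  have hAr : ∀ v, A v ∈ range B := fun v => hWB (Submodule.mem_sup_left ⟨v, rfl⟩)
  let S : range B →ₗ[k] range B := (A ∘ₗ s).codRestrict (range B) (fun v => hAr _)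
  have hS : ∀ w, (S w : V) = A (s w) := fun w => rfl
  have hBr : ∀ v, B v ∈ range B := fun v => ⟨v, rfl⟩
  have hker : ∀ v, v - s ⟨B v, hBr v⟩ ∈ range B := by
    intro v
    apply kB'.le
    rw [LinearMap.mem_ker, map_sub, hBs, sub_self]
  have hA0 : ∀ w ∈ range B, A w = 0 := by
    intro w hw
    rw [← kA'] at hw
    exact hw
  have hB0 : ∀ w ∈ range B, B w = 0 := by
    intro w hw
    rw [← kB'] at hw
    exact hw
  have hnt' : Nontrivial (range B) := Submodule.nontrivial_iff_ne_bot.2 hnt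
  have hAv : ∀ v, A v = S ⟨B v, hBr v⟩ := by
    intro v
    have := hA0 _ (hker v)
    rw [map_sub, sub_eq_zero] at this
    rw [this]
    rfl
  obtain ⟨w0, hw0⟩ := exists_cyclic S (by
    rintro e he ⟨w, hw, hew⟩
    -- extension of `e`
    let p : V →ₗ[k] range B := (LinearMap.id - s ∘ₗ B.rangeRestrict).codRestrict (range B) hker
    have hp : ∀ v, (p v : V) = v - s ⟨B v, hBr v⟩ := fun v => rfl
    let E : V →ₗ[k] V := s ∘ₗ e ∘ₗ B.rangeRestrict + (range B).subtype ∘ₗ e ∘ₗ p
    have hE : ∀ v, E v = s (e ⟨B v, hBr v⟩) + e (p v) := fun v => rfl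
    have hEW : ∀ w : range B, E w = e w := by
      intro w
      have h1 : (⟨B w, hBr w⟩ : range B) = 0 := Subtype.ext (hB0 _ w.2)
      have h2 : p w = w := Subtype.ext (by rw [hp, h1, map_zero, sub_zero])
      rw [hE, h1, h2, map_zero, map_zero, zero_add]
    have hEB : ∀ v, E (B v) = B (E v) := by
      intro v
      have h1 : E (B v) = e ⟨B v, hBr v⟩ := hEW ⟨B v, hBr v⟩
      rw [h1, hE, map_add, hBs, hB0 _ (e (p v)).2, add_zero]
    have hEA : ∀ v, E (A v) = A (E v) := by
      intro v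
      rw [hE v, map_add, hA0 _ (e (p v)).2, add_zero, hAv v, hEW, he]
      rfl
    have hEinj := h.rigid E hEA hEB ⟨w, by
      intro h0
      exact hw (Subtype.ext h0), by rw [hEW, hew]⟩
    intro x y hxy
    apply Subtype.ext
    apply hEinj
    rw [hEW, hEW, hxy])
  obtain ⟨n, q, hind, hq, hspan⟩ := exists_pow_basis S w0 hw0
  have hpow : ∀ i : ℕ, S ((S ^ i) w0) = (S ^ (i + 1)) w0 := by
    intro i; rw [pow_succ']; rfl
  have hn : n = finrank k (range B) := by
    have hb : ⊤ ≤ Submodule.span k (Set.range fun i : Fin n => (S ^ (i : ℕ)) w0) := by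
      intro w _
      obtain ⟨b, rfl⟩ := hspan w
      exact Submodule.sum_mem _
        (fun i _ => Submodule.smul_mem _ _ (Submodule.subset_span ⟨i, rfl⟩))
    have := Module.finrank_eq_card_basis (Basis.mk hind hb)
    rw [this, Fintype.card_fin]
  refine ⟨n, q, ?_, ?_, ?_⟩
  · refine Iso.mk (fun i : Fin n => s ((S ^ (i : ℕ)) w0))
      (fun i : Fin n => ((S ^ (i : ℕ)) w0 : V)) ?_ (fun j => hA0 _ (Subtype.mem _))
      (fun j => hB0 _ (Subtype.mem _)) ?_ ?_ ?_ ?_
    · exact hind.map' (range B).subtype (Submodule.ker_subtype _)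
    · intro i
      show A (s ((S ^ (i : ℕ)) w0)) = ∑ j : Fin n, comp q j i • ((S ^ (j : ℕ)) w0 : V)
      rw [← hS, hpow]
      rcases Nat.lt_or_ge ((i : ℕ) + 1) n with h3 | h3
      · have e : ∀ j : Fin n, comp q j i • ((S ^ (j : ℕ)) w0 : V) =
            (if (j : ℕ) = (i : ℕ) + 1 then (1 : k) else 0) •
              (fun t : ℕ => ((S ^ t) w0 : V)) j := by
          intro j
          have : ¬ (i : ℕ) + 1 = n := by omega
          simp only [comp, this, if_false]
        rw [Finset.sum_congr rfl (fun j _ => e j),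
          sum_ite_nat (k := k) (fun t : ℕ => ((S ^ t) w0 : V)) _ h3]
      · have h4 : (i : ℕ) + 1 = n := by have := i.2; omega
        rw [h4, hq]
        rw [Submodule.coe_sum]
        apply Finset.sum_congr rfl
        intro j _
        simp [comp, h4]
    · intro i
      show B (s ((S ^ (i : ℕ)) w0)) =
        ∑ j : Fin n, (1 : Matrix (Fin n) (Fin n) k) j i • ((S ^ (j : ℕ)) w0 : V)
      rw [hBs, Finset.sum_eq_single i]
      · simp
      · intro j _ hj
        simp [Matrix.one_apply_ne hj]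
      · intro h; exact absurd (Finset.mem_univ _) h
    · intro a _ ha
      rwa [Matrix.one_mulVec] at ha
    · intro v
      obtain ⟨a, ha⟩ := hspan ⟨B v, hBr v⟩
      obtain ⟨b, hb⟩ := hspan ⟨v - s ⟨B v, hBr v⟩, hker v⟩
      refine ⟨a, b, ?_⟩
      have h1 : s ⟨B v, hBr v⟩ = ∑ i : Fin n, a i • s ((S ^ (i : ℕ)) w0) := by
        rw [ha, map_sum]
        simp only [map_smul]
      have h2 : v - s ⟨B v, hBr v⟩ = ∑ i : Fin n, b i • ((S ^ (i : ℕ)) w0 : V) := by
        have := congrArg Subtype.val hb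
        rw [Submodule.coe_sum] at this
        exact this
      rw [← h1, ← h2]
      abel
  · rw [hn]
    exact Module.finrank_pos
  · rw [← rB, hn]

end Pool.Agent.Helper25.Kro
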