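import Pool.Agent.Helper25.Kro.Iso

/-!
# The list over the field with two elements
-/

set_option maxRecDepth 100000

namespace Pool.Agent.Helper25.Kro

open Module LinearMap Pool.Agent.Helper25.Kron

/-- `A', B'` are two of the three maps `A, B, C`. -/
def Perm {V : Type*} [AddCommGroup V] [Module (ZMod 2) V] (A B C A' B' : V →ₗ[ZMod 2] V) : Prop :=
  (A' = A ∧ B' = B) ∨ (A' = B ∧ B' = A) ∨ (A' = B ∧ B' = C) ∨ (A' = C ∧ B' = B) ∨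
    (A' = C ∧ B' = A) ∨ (A' = A ∧ B' = C)

variable {V : Type*} [AddCommGroup V] [Module (ZMod 2) V] {A B C : V →ₗ[ZMod 2] V}

lemma Iso.rot (h : Sys A B C) {n m : ℕ} {M N : Matrix (Fin m) (Fin n) (ZMod 2)}
    (hI : Iso A B M N) : Iso B C N (M + N) := by
  obtain ⟨f, h1, h2⟩ := hI
  refine ⟨f, h2, ?_⟩
  intro a b
  have h3 : ∀ v : V, v + v = 0 := by
    intro v
    have : (2 : ZMod 2) • v = 0 := by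
      have h2 : (2 : ZMod 2) = 0 := rfl
      rw [h2, zero_smul]
    rwa [two_smul] at this
  have h4 : C (f (a, b)) = A (f (a, b)) + B (f (a, b)) := by
    have h5 := h.sum (f (a, b))
    have h6 := h3 (C (f (a, b)))
    calc C (f (a, b)) = C (f (a, b)) + (A (f (a, b)) + B (f (a, b)) + C (f (a, b))) := by
          rw [h5, add_zero]
      _ = (C (f (a, b)) + C (f (a, b))) + (A (f (a, b)) + B (f (a, b))) := by abel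
      _ = _ := by rw [h6, zero_add]
  rw [h4, h1, h2, ← map_add]
  congr 1
  rw [Matrix.add_mulVec]
  simp

lemma no_idempotent (h : Sys A B C) {n : ℕ} {M E : Matrix (Fin n) (Fin n) (ZMod 2)}
    (hI : Iso A B M 1) (hE : E * M = M * E) {a a' : Fin n → ZMod 2} (ha : a ≠ 0)
    (hEa : E.mulVec a = a) (ha' : a' ≠ 0) (hEa' : E.mulVec a' = 0) : False := by
  obtain ⟨f, h1, h2⟩ := hI
  let e : V →ₗ[ZMod 2] V := f.toLinearMap ∘ₗ (E.mulVecLin.prodMap E.mulVecLin) ∘ₗ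
    f.symm.toLinearMap
  have he : ∀ a b, e (f (a, b)) = f (E.mulVec a, E.mulVec b) := by
    intro a b
    show f ((E.mulVecLin.prodMap E.mulVecLin) (f.symm (f (a, b)))) = _
    rw [f.symm_apply_apply]
    rfl
  have hinj := h.rigid e (by
    intro v
    obtain ⟨⟨a, b⟩, rfl⟩ := f.surjective v
    rw [h1, he, he, h1, Matrix.mulVec_mulVec, Matrix.mulVec_mulVec, hE, Matrix.mulVec_zero]) (by
    intro v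
    obtain ⟨⟨a, b⟩, rfl⟩ := f.surjective v
    rw [h2, he, he, h2, Matrix.one_mulVec, Matrix.one_mulVec, Matrix.mulVec_zero])
    ⟨f (a, 0), by
      intro h0
      rw [LinearEquiv.map_eq_zero_iff] at h0
      exact ha (congrArg Prod.fst h0), by rw [he, hEa, Matrix.mulVec_zero]⟩
  have h3 : f (a', 0) = 0 := by
    apply hinj
    rw [he, hEa', Matrix.mulVec_zero, map_zero]
    exact map_zero f
  rw [LinearEquiv.map_eq_zero_iff] at h3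
  exact ha' (congrArg Prod.fst h3)

lemma list1 : ∀ q : Fin 1 → ZMod 2, (∀ a, (comp q).mulVec a = 0 → a = 0) →
    (∀ a, (comp q + 1).mulVec a = 0 → a = 0) → False := by
  decide +kernel

lemma list2 : ∀ q : Fin 2 → ZMod 2, (∀ a, (comp q).mulVec a = 0 → a = 0) →
    (∀ a, (comp q + 1).mulVec a = 0 → a = 0) → q = ![1, 1] := by
  decide +kernel

lemma list3 : ∀ q : Fin 3 → ZMod 2, (∀ a, (comp q).mulVec a = 0 → a = 0) →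
    (∀ a, (comp q + 1).mulVec a = 0 → a = 0) → q = ![1, 0, 1] ∨ q = ![1, 1, 0] := by
  decide +kernel

lemma list4 : ∀ q : Fin 4 → ZMod 2, (∀ a, (comp q).mulVec a = 0 → a = 0) →
    (∀ a, (comp q + 1).mulVec a = 0 → a = 0) → q = ![1, 0, 0, 1] ∨ q = ![1, 0, 1, 0] ∨ q = ![1, 1, 0, 0] ∨ q = ![1, 1, 1, 1] := by
  decide +kernel

lemma list5 : ∀ q : Fin 5 → ZMod 2, (∀ a, (comp q).mulVec a = 0 → a = 0) →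
    (∀ a, (comp q + 1).mulVec a = 0 → a = 0) → q = ![1, 0, 0, 0, 1] ∨ q = ![1, 0, 0, 1, 0] ∨ q = ![1, 0, 1, 0, 0] ∨ q = ![1, 0, 1, 1, 1] ∨ q = ![1, 1, 0, 0, 0] ∨ q = ![1, 1, 0, 1, 1] ∨ q = ![1, 1, 1, 0, 1] ∨ q = ![1, 1, 1, 1, 0] := by
  decide +kernel

lemma step2 (h : Sys A B C) (q : Fin 2 → ZMod 2) (hI : Iso A B (comp q) 1)
    (hA : ∀ a, (comp q).mulVec a = 0 → a = 0) (hC : ∀ a, (comp q + 1).mulVec a = 0 → a = 0) :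
    ∃ A' B', Perm A B C A' B' ∧ (Iso A' B' (comp (![1, 1] : Fin 2 → ZMod 2)) 1) := by
  obtain rfl := list2 q hA hC
  · exact ⟨A, B, Or.inl ⟨rfl, rfl⟩, hI⟩

lemma step3 (h : Sys A B C) (q : Fin 3 → ZMod 2) (hI : Iso A B (comp q) 1)
    (hA : ∀ a, (comp q).mulVec a = 0 → a = 0) (hC : ∀ a, (comp q + 1).mulVec a = 0 → a = 0) :
    ∃ A' B', Perm A B C A' B' ∧ (Iso A' B' (comp (![1, 1, 0] : Fin 3 → ZMod 2)) 1) := by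
  rcases list3 q hA hC with rfl | rfl
  · refine ⟨B, A, Or.inr (Or.inl ⟨rfl, rfl⟩), ?_⟩
    refine Iso.change hI.symm
      !![1, 0, 1; 0, 1, 1; 0, 1, 0]
      !![1, 1, 1; 0, 0, 1; 0, 1, 1]
      !![0, 1, 0; 1, 0, 1; 0, 0, 1]
      !![0, 1, 1; 1, 0, 0; 0, 0, 1] ?_ ?_ ?_ ?_ <;> decide +kernel
  · exact ⟨A, B, Or.inl ⟨rfl, rfl⟩, hI⟩

lemma step4 (h : Sys A B C) (q : Fin 4 → ZMod 2) (hI : Iso A B (comp q) 1)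
    (hA : ∀ a, (comp q).mulVec a = 0 → a = 0) (hC : ∀ a, (comp q + 1).mulVec a = 0 → a = 0) :
    ∃ A' B', Perm A B C A' B' ∧ (Iso A' B' (comp (![1, 1, 0, 0] : Fin 4 → ZMod 2)) 1 ∨ Iso A' B' (comp (![1, 0, 1, 0] : Fin 4 → ZMod 2)) 1) := by
  rcases list4 q hA hC with rfl | rfl | rfl | rfl
  · refine ⟨B, A, Or.inr (Or.inl ⟨rfl, rfl⟩), Or.inl ?_⟩
    refine Iso.change hI.symm
      !![1, 0, 0, 1; 0, 0, 1, 1; 0, 1, 1, 0; 0, 1, 0, 0]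
      !![1, 1, 1, 1; 0, 0, 0, 1; 0, 0, 1, 1; 0, 1, 1, 1]
      !![0, 1, 0, 0; 1, 0, 0, 1; 0, 0, 1, 1; 0, 0, 1, 0]
      !![0, 1, 1, 1; 1, 0, 0, 0; 0, 0, 0, 1; 0, 0, 1, 1] ?_ ?_ ?_ ?_ <;> decide +kernel
  · exact ⟨A, B, Or.inl ⟨rfl, rfl⟩, Or.inr hI⟩
  · exact ⟨A, B, Or.inl ⟨rfl, rfl⟩, Or.inl hI⟩
  · refine ⟨B, C, Or.inr (Or.inr (Or.inl ⟨rfl, rfl⟩)), Or.inl ?_⟩
    refine Iso.change (hI.rot h)
      !![1, 0, 0, 0; 0, 1, 1, 1; 0, 0, 1, 0; 0, 1, 0, 0]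
      !![1, 0, 0, 0; 0, 0, 0, 1; 0, 0, 1, 0; 0, 1, 1, 1]
      !![1, 1, 0, 0; 1, 0, 1, 1; 0, 0, 0, 1; 0, 0, 1, 0]
      !![0, 1, 1, 1; 1, 1, 1, 1; 0, 0, 0, 1; 0, 0, 1, 0] ?_ ?_ ?_ ?_ <;> decide +kernel

lemma step5 (h : Sys A B C) (q : Fin 5 → ZMod 2) (hI : Iso A B (comp q) 1)
    (hA : ∀ a, (comp q).mulVec a = 0 → a = 0) (hC : ∀ a, (comp q + 1).mulVec a = 0 → a = 0) :
    ∃ A' B', Perm A B C A' B' ∧ (Iso A' B' (comp (![1, 0, 1, 0, 0] : Fin 5 → ZMod 2)) 1) := by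
  rcases list5 q hA hC with rfl | rfl | rfl | rfl | rfl | rfl | rfl | rfl
  · exact absurd (no_idempotent h (E := !![0, 1, 0, 1, 1; 0, 0, 1, 0, 1; 1, 0, 0, 1, 0; 1, 1, 0, 0, 1; 1, 0, 1, 1, 1]) hI
      (a := ![0, 0, 1, 1, 1]) (a' := ![0, 1, 1, 0, 1]) (by decide +kernel) (by decide +kernel) (by decide +kernel)
      (by decide +kernel) (by decide +kernel)) not_false
  · refine ⟨B, A, Or.inr (Or.inl ⟨rfl, rfl⟩), ?_⟩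
    refine Iso.change hI.symm
      !![1, 0, 0, 1, 0; 0, 0, 1, 0, 1; 0, 1, 0, 1, 1; 0, 0, 1, 0, 0; 0, 1, 0, 0, 1]
      !![1, 0, 1, 0, 1; 0, 1, 0, 1, 1; 0, 0, 0, 1, 0; 0, 0, 1, 0, 1; 0, 1, 0, 1, 0]
      !![0, 1, 0, 0, 1; 1, 0, 0, 1, 0; 0, 0, 1, 0, 1; 0, 0, 0, 1, 0; 0, 0, 1, 0, 0]
      !![0, 1, 0, 1, 0; 1, 0, 1, 0, 1; 0, 0, 0, 0, 1; 0, 0, 0, 1, 0; 0, 0, 1, 0, 1] ?_ ?_ ?_ ?_ <;> decide +kernel
  · exact ⟨A, B, Or.inl ⟨rfl, rfl⟩, hI⟩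
  · refine ⟨B, C, Or.inr (Or.inr (Or.inl ⟨rfl, rfl⟩)), ?_⟩
    refine Iso.change (hI.rot h)
      !![1, 0, 0, 0, 1; 0, 0, 0, 0, 1; 0, 1, 1, 1, 1; 0, 0, 1, 0, 0; 0, 1, 0, 0, 1]
      !![1, 1, 0, 0, 0; 0, 1, 0, 0, 1; 0, 0, 0, 1, 0; 0, 0, 1, 1, 1; 0, 1, 0, 0, 0]
      !![1, 1, 0, 0, 0; 1, 0, 0, 0, 0; 0, 0, 1, 1, 1; 0, 0, 0, 1, 0; 0, 0, 1, 0, 0]
      !![0, 1, 0, 0, 0; 1, 1, 0, 0, 0; 0, 0, 0, 0, 1; 0, 0, 0, 1, 0; 0, 0, 1, 1, 1] ?_ ?_ ?_ ?_ <;> decide +kernel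
  · exact absurd (no_idempotent h (E := !![0, 1, 1, 0, 1; 1, 1, 0, 1, 1; 0, 1, 1, 0, 1; 1, 0, 1, 1, 0; 1, 1, 0, 1, 1]) hI
      (a := ![0, 1, 0, 1, 1]) (a' := ![0, 0, 1, 1, 1]) (by decide +kernel) (by decide +kernel) (by decide +kernel)
      (by decide +kernel) (by decide +kernel)) not_false
  · refine ⟨C, A, Or.inr (Or.inr (Or.inr (Or.inr (Or.inl ⟨rfl, rfl⟩)))), ?_⟩
    refine Iso.change (hI.symm.rot h.swap).symm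
      !![1, 0, 0, 1, 1; 0, 0, 1, 1, 1; 0, 1, 0, 0, 0; 0, 1, 0, 1, 1; 0, 1, 1, 1, 0]
      !![1, 0, 1, 1, 0; 0, 0, 1, 0, 0; 0, 1, 1, 1, 0; 0, 1, 0, 1, 1; 0, 1, 1, 0, 1]
      !![0, 1, 1, 1, 0; 1, 1, 1, 0, 1; 0, 0, 1, 1, 1; 0, 0, 1, 1, 0; 0, 0, 1, 0, 1]
      !![1, 1, 0, 1, 1; 1, 0, 0, 1, 0; 0, 0, 1, 1, 1; 0, 0, 1, 0, 1; 0, 0, 1, 1, 0] ?_ ?_ ?_ ?_ <;> decide +kernel
  · refine ⟨C, B, Or.inr (Or.inr (Or.inr (Or.inl ⟨rfl, rfl⟩))), ?_⟩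
    refine Iso.change (hI.rot h).symm
      !![1, 1, 1, 1, 1; 0, 1, 0, 1, 0; 0, 0, 1, 1, 0; 0, 0, 0, 1, 0; 0, 0, 0, 0, 1]
      !![1, 1, 1, 1, 1; 0, 1, 0, 1, 0; 0, 0, 1, 1, 0; 0, 0, 0, 1, 0; 0, 0, 0, 0, 1]
      !![1, 1, 1, 1, 1; 0, 1, 0, 1, 0; 0, 0, 1, 1, 0; 0, 0, 0, 1, 0; 0, 0, 0, 0, 1]
      !![1, 1, 1, 1, 1; 0, 1, 0, 1, 0; 0, 0, 1, 1, 0; 0, 0, 0, 1, 0; 0, 0, 0, 0, 1] ?_ ?_ ?_ ?_ <;> decide +kernel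
  · refine ⟨A, C, Or.inr (Or.inr (Or.inr (Or.inr (Or.inr ⟨rfl, rfl⟩)))), ?_⟩
    refine Iso.change ((hI.symm.rot h.swap))
      !![1, 1, 0, 0, 1; 0, 1, 1, 0, 0; 0, 0, 0, 1, 1; 0, 1, 0, 1, 1; 0, 1, 1, 1, 0]
      !![1, 1, 0, 1, 1; 0, 0, 1, 1, 0; 0, 1, 1, 1, 0; 0, 1, 0, 0, 1; 0, 1, 1, 0, 1]
      !![1, 0, 1, 1, 1; 1, 1, 0, 1, 1; 0, 0, 0, 0, 1; 0, 0, 1, 1, 0; 0, 0, 1, 0, 1]
      !![1, 0, 1, 1, 0; 1, 1, 1, 0, 1; 0, 0, 1, 0, 1; 0, 0, 1, 1, 1; 0, 0, 1, 0, 0] ?_ ?_ ?_ ?_ <;> decide +kernel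

end Pool.Agent.Helper25.Kro
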