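import Pool.Agent.Helper25.Kro.Classify

/-!
# Representations of the Klein four group over the field with two elements
-/

namespace Pool.Agent.Helper25.Kro

open Module LinearMap Pool.Agent.Helper25.Kron

/-- The group `C₂ × C₂`, written multiplicatively. -/
abbrev C22 : Type := Multiplicative (ZMod 2 × ZMod 2)

/-- A representation over `𝔽₂` is indecomposable if it is nonzero and not the direct sum of two
nonzero stable subspaces. -/
def Indecomposable {G V : Type} [Group G] [AddCommGroup V] [Module (ZMod 2) V]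
    (ρ : Representation (ZMod 2) G V) : Prop :=
  Nontrivial V ∧ ∀ p q : Submodule (ZMod 2) V, (∀ g, ∀ v ∈ p, ρ g v ∈ p) →
    (∀ g, ∀ v ∈ q, ρ g v ∈ q) → IsCompl p q → p = ⊥ ∨ q = ⊥

/-- The intersection of the images of the maps `v ↦ v + g v`, `g ≠ 1`. -/
def repCore {V : Type} [AddCommGroup V] [Module (ZMod 2) V]
    (ρ : Representation (ZMod 2) C22 V) : Submodule (ZMod 2) V :=
  ⨅ g : {g : C22 // g ≠ 1}, LinearMap.range (LinearMap.id + ρ g)

/-- The representation attached to a pair of matrices: `g = (i, j)` maps `(a, b)` to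
`(a, b + i M a + j N a)`. -/
def kroRep {n m : ℕ} (M N : Matrix (Fin m) (Fin n) (ZMod 2)) :
    Representation (ZMod 2) C22 ((Fin n → ZMod 2) × (Fin m → ZMod 2)) where
  toFun g := LinearMap.id + (LinearMap.inr _ _ _) ∘ₗ
    ((Multiplicative.toAdd g).1 • M.mulVecLin + (Multiplicative.toAdd g).2 • N.mulVecLin) ∘ₗ
      (LinearMap.fst _ _ _)
  map_one' := by
    ext x <;> simp
  map_mul' g h := by
    apply LinearMap.ext
    rintro ⟨a, b⟩
    simp [add_smul]
    abel

lemma kroRep_apply {n m : ℕ} (M N : Matrix (Fin m) (Fin n) (ZMod 2)) (g : C22)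
    (a : Fin n → ZMod 2) (b : Fin m → ZMod 2) :
    kroRep M N g (a, b) = (a, b + ((Multiplicative.toAdd g).1 • M.mulVec a +
      (Multiplicative.toAdd g).2 • N.mulVec a)) := by
  simp [kroRep]

/-- The three involutions. -/
def sg : C22 := Multiplicative.ofAdd (1, 0)
/-- The second involution. -/
def tg : C22 := Multiplicative.ofAdd (0, 1)
/-- The third involution. -/
def rg : C22 := Multiplicative.ofAdd (1, 1)

lemma C22_cases (g : C22) : g = 1 ∨ g = sg ∨ g = tg ∨ g = rg := by
  revert g; decide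

variable {V : Type} [AddCommGroup V] [Module (ZMod 2) V] {ρ : Representation (ZMod 2) C22 V}

lemma add_self (v : V) : v + v = 0 := by
  have : (2 : ZMod 2) • v = 0 := by
    have h2 : (2 : ZMod 2) = 0 := rfl
    rw [h2, zero_smul]
  rwa [two_smul] at this

lemma rho_mul (g h : C22) (v : V) : ρ g (ρ h v) = ρ (g * h) v := by
  rw [map_mul]; rfl

lemma rho_one (v : V) : ρ 1 v = v := by rw [map_one]; rfl

/-- A representation with norm relation gives a system. -/
lemma sys_of_rep [FiniteDimensional (ZMod 2) V] (hind : Indecomposable ρ)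
    (hN : ∀ v, v + ρ sg v + ρ tg v + ρ rg v = 0) :
    Sys (LinearMap.id + ρ sg) (LinearMap.id + ρ tg) (LinearMap.id + ρ rg) where
  sum v := by
    simp only [LinearMap.add_apply, LinearMap.id_apply]
    have h1 := hN v
    have h2 := add_self v
    calc v + ρ sg v + (v + ρ tg v) + (v + ρ rg v) =
        (v + ρ sg v + ρ tg v + ρ rg v) + (v + v) := by abel
      _ = 0 := by rw [h1, h2, add_zero]
  AA v := by
    simp only [LinearMap.add_apply, LinearMap.id_apply, map_add, rho_mul]
    rw [show sg * sg = 1 by decide, rho_one]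
    have h2 := add_self (v + ρ sg v)
    calc v + ρ sg v + (ρ sg v + v) = (v + ρ sg v) + (v + ρ sg v) := by abel
      _ = 0 := h2
  AB v := by
    simp only [LinearMap.add_apply, LinearMap.id_apply, map_add, rho_mul]
    rw [show sg * tg = rg by decide]
    have h1 := hN v
    rw [← h1]; abel
  BA v := by
    simp only [LinearMap.add_apply, LinearMap.id_apply, map_add, rho_mul]
    rw [show tg * sg = rg by decide]
    have h1 := hN v
    rw [← h1]; abel
  BB v := by
    simp only [LinearMap.add_apply, LinearMap.id_apply, map_add, rho_mul]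
    rw [show tg * tg = 1 by decide, rho_one]
    have h2 := add_self (v + ρ tg v)
    calc v + ρ tg v + (ρ tg v + v) = (v + ρ tg v) + (v + ρ tg v) := by abel
      _ = 0 := h2
  rigid e h1 h2 := by
    rintro ⟨v0, hv0, hv⟩
    -- `e` commutes with the representation
    have hcomm : ∀ g v, e (ρ g v) = ρ g (e v) := by
      have hs : ∀ v, e (ρ sg v) = ρ sg (e v) := by
        intro v
        have := h1 v
        simp only [LinearMap.add_apply, LinearMap.id_apply, map_add] at this
        exact add_left_cancel this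
      have ht : ∀ v, e (ρ tg v) = ρ tg (e v) := by
        intro v
        have := h2 v
        simp only [LinearMap.add_apply, LinearMap.id_apply, map_add] at this
        exact add_left_cancel this
      intro g v
      rcases C22_cases g with rfl | rfl | rfl | rfl
      · rw [rho_one, rho_one]
      · exact hs v
      · exact ht v
      · rw [show rg = sg * tg by decide, ← rho_mul, ← rho_mul, hs, ht]
    have hcomm' : ∀ n : ℕ, ∀ g v, (e ^ n) (ρ g v) = ρ g ((e ^ n) v) := by
      intro n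
      induction n with
      | zero => intro g v; rfl
      | succ n ih =>
        intro g v
        rw [pow_succ']
        show e ((e ^ n) (ρ g v)) = ρ g (e ((e ^ n) v))
        rw [ih, hcomm]
    have hfix : ∀ n : ℕ, (e ^ n) v0 = v0 := by
      intro n
      induction n with
      | zero => rfl
      | succ n ih =>
        rw [pow_succ']
        show e ((e ^ n) v0) = v0
        rw [ih, hv]
    obtain ⟨n, hn⟩ := Filter.eventually_atTop.1 e.eventually_isCompl_ker_pow_range_pow
    have hcompl := hn (max n 1) (le_max_left _ _)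
    rcases hind.2 (ker (e ^ max n 1)) (range (e ^ max n 1)) (by
      intro g v hv
      rw [LinearMap.mem_ker] at hv ⊢
      rw [hcomm', hv, map_zero]) (by
      rintro g _ ⟨v, rfl⟩
      exact ⟨ρ g v, hcomm' _ _ _⟩) hcompl with h3 | h3
    · -- kernel zero
      rw [LinearMap.ker_eq_bot] at h3
      have h4 : max n 1 = (max n 1 - 1) + 1 := by omega
      rw [h4, pow_succ] at h3
      exact Function.Injective.of_comp h3
    · exfalso
      apply hv0
      have : v0 ∈ range (e ^ max n 1) := ⟨v0, hfix _⟩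
      rw [h3] at this
      exact (Submodule.mem_bot _).1 this

lemma repCore_eq : repCore ρ = range (LinearMap.id + ρ sg) ⊓ range (LinearMap.id + ρ tg) ⊓
    range (LinearMap.id + ρ rg) := by
  apply le_antisymm
  · refine le_inf (le_inf ?_ ?_) ?_
    · exact iInf_le (fun g : {g : C22 // g ≠ 1} => LinearMap.range (LinearMap.id + ρ g))
        ⟨sg, by decide⟩
    · exact iInf_le (fun g : {g : C22 // g ≠ 1} => LinearMap.range (LinearMap.id + ρ g))
        ⟨tg, by decide⟩
    · exact iInf_le (fun g : {g : C22 // g ≠ 1} => LinearMap.range (LinearMap.id + ρ g))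
        ⟨rg, by decide⟩
  · apply le_iInf
    rintro ⟨g, hg⟩
    rcases C22_cases g with rfl | rfl | rfl | rfl
    · exact absurd rfl hg
    · exact inf_le_left.trans inf_le_left
    · exact inf_le_left.trans inf_le_right
    · exact inf_le_right

/-- Automorphisms of `C₂ × C₂` realize all pairs. -/
lemma exists_aut (A' B' : V →ₗ[ZMod 2] V)
    (h : Perm (LinearMap.id + ρ sg) (LinearMap.id + ρ tg) (LinearMap.id + ρ rg) A' B') :
    ∃ α : C22 ≃* C22, A' = LinearMap.id + ρ (α sg) ∧ B' = LinearMap.id + ρ (α tg) := by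
  -- linear automorphisms of `ZMod 2 × ZMod 2`
  have key : ∀ (x y : ZMod 2 × ZMod 2) (h : x.1 * y.2 + x.2 * y.1 = 1),
      ∃ α : C22 ≃* C22, α sg = Multiplicative.ofAdd x ∧ α tg = Multiplicative.ofAdd y := by
    intro x y hxy
    refine ⟨AddEquiv.toMultiplicative
      { toFun := fun z => (z.1 * x.1 + z.2 * y.1, z.1 * x.2 + z.2 * y.2)
        invFun := fun z => (z.1 * y.2 + z.2 * y.1, z.1 * x.2 + z.2 * x.1)
        left_inv := ?_
        right_inv := ?_
        map_add' := ?_ }, ?_, ?_⟩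
    · revert x y; decide
    · revert x y; decide
    · intro a b; ext <;> simp <;> ring
    · show Multiplicative.ofAdd (((1 : ZMod 2) * x.1 + 0 * y.1, 1 * x.2 + 0 * y.2)) = _
      simp
    · show Multiplicative.ofAdd (((0 : ZMod 2) * x.1 + 1 * y.1, 0 * x.2 + 1 * y.2)) = _
      simp
  rcases h with ⟨rfl, rfl⟩ | ⟨rfl, rfl⟩ | ⟨rfl, rfl⟩ | ⟨rfl, rfl⟩ | ⟨rfl, rfl⟩ | ⟨rfl, rfl⟩
  · obtain ⟨α, h1, h2⟩ := key (1, 0) (0, 1) (by decide)
    exact ⟨α, by rw [h1]; rfl, by rw [h2]; rfl⟩
  · obtain ⟨α, h1, h2⟩ := key (0, 1) (1, 0) (by decide)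
    exact ⟨α, by rw [h1]; rfl, by rw [h2]; rfl⟩
  · obtain ⟨α, h1, h2⟩ := key (0, 1) (1, 1) (by decide)
    exact ⟨α, by rw [h1]; rfl, by rw [h2]; rfl⟩
  · obtain ⟨α, h1, h2⟩ := key (1, 1) (0, 1) (by decide)
    exact ⟨α, by rw [h1]; rfl, by rw [h2]; rfl⟩
  · obtain ⟨α, h1, h2⟩ := key (1, 1) (1, 0) (by decide)
    exact ⟨α, by rw [h1]; rfl, by rw [h2]; rfl⟩
  · obtain ⟨α, h1, h2⟩ := key (1, 0) (1, 1) (by decide)
    exact ⟨α, by rw [h1]; rfl, by rw [h2]; rfl⟩

/-- An isomorphism of pencils is an isomorphism of representations. -/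
lemma equiv_of_iso {n m : ℕ} {M N : Matrix (Fin m) (Fin n) (ZMod 2)} (α : C22 ≃* C22)
    (h : Iso (LinearMap.id + ρ (α sg)) (LinearMap.id + ρ (α tg)) M N) :
    ∃ f : ((Fin n → ZMod 2) × (Fin m → ZMod 2)) ≃ₗ[ZMod 2] V,
      ∀ g x, f (kroRep M N g x) = ρ (α g) (f x) := by
  obtain ⟨f, h1, h2⟩ := h
  refine ⟨f, ?_⟩
  have key : ∀ g, (∀ a b, (LinearMap.id + ρ (α g) : V →ₗ[ZMod 2] V) (f (a, b)) =
      f (0, ((Multiplicative.toAdd g).1 • M.mulVec a + (Multiplicative.toAdd g).2 • N.mulVec a))) →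
      ∀ x, f (kroRep M N g x) = ρ (α g) (f x) := by
    rintro g hg ⟨a, b⟩
    rw [kroRep_apply]
    have h3 := hg a b
    rw [LinearMap.add_apply, LinearMap.id_apply] at h3
    have h4 : ρ (α g) (f (a, b)) = f (a, b) + (f (a, b) + ρ (α g) (f (a, b))) := by
      rw [← add_assoc, add_self, zero_add]
    rw [h4, h3, ← map_add]
    congr 1
    ext <;> simp
  have hs : ∀ x, f (kroRep M N sg x) = ρ (α sg) (f x) := by
    apply key
    intro a b
    rw [h1]
    congr 2
    show _ = (1 : ZMod 2) • _ + (0 : ZMod 2) • _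
    simp
  have ht : ∀ x, f (kroRep M N tg x) = ρ (α tg) (f x) := by
    apply key
    intro a b
    rw [h2]
    congr 2
    show _ = (0 : ZMod 2) • _ + (1 : ZMod 2) • _
    simp
  intro g x
  rcases C22_cases g with rfl | rfl | rfl | rfl
  · rw [map_one, map_one, map_one]; rfl
  · exact hs x
  · exact ht x
  · rw [show rg = sg * tg by decide, map_mul, map_mul, map_mul]
    show f (kroRep M N sg (kroRep M N tg x)) = ρ (α sg) (ρ (α tg) (f x))
    rw [hs, ht]

/-- `ρ` is, up to an automorphism of `C₂ × C₂`, the representation of the pencil `M, N`. -/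
def IsKro (ρ : Representation (ZMod 2) C22 V) {n m : ℕ}
    (M N : Matrix (Fin m) (Fin n) (ZMod 2)) : Prop :=
  ∃ (α : C22 ≃* C22) (f : ((Fin n → ZMod 2) × (Fin m → ZMod 2)) ≃ₗ[ZMod 2] V),
    ∀ g x, f (kroRep M N g x) = ρ (α g) (f x)

/-- The classification of indecomposable representations with norm relation and core of dimension
at most five. -/
theorem rep_classify [FiniteDimensional (ZMod 2) V] (hind : Indecomposable ρ)
    (hN : ∀ v, v + ρ sg v + ρ tg v + ρ rg v = 0) (hcore : finrank (ZMod 2) (repCore ρ) ≤ 5) :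
    (∃ n ≤ 5, IsKro ρ (mU (ZMod 2) n (n + 1)) (mD (ZMod 2) n (n + 1))) ∨
    (∃ n, 1 ≤ n ∧ n ≤ 7 ∧ IsKro ρ (mD (ZMod 2) (n + 1) n) (mL (ZMod 2) (n + 1) n)) ∨
    (∃ n, 1 ≤ n ∧ n ≤ 6 ∧ IsKro ρ (comp (0 : Fin n → ZMod 2)) 1) ∨
    IsKro ρ (comp (![1, 1] : Fin 2 → ZMod 2)) 1 ∨
    IsKro ρ (comp (![1, 1, 0] : Fin 3 → ZMod 2)) 1 ∨
    IsKro ρ (comp (![1, 1, 0, 0] : Fin 4 → ZMod 2)) 1 ∨
    IsKro ρ (comp (![1, 0, 1, 0] : Fin 4 → ZMod 2)) 1 ∨
    IsKro ρ (comp (![1, 0, 1, 0, 0] : Fin 5 → ZMod 2)) 1 := by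
  rw [repCore_eq] at hcore
  have hpos : 0 < finrank (ZMod 2) V := by
    have := hind.1
    exact Module.finrank_pos
  obtain ⟨A', B', hp, hl⟩ := classify (sys_of_rep hind hN) hpos hcore
  obtain ⟨α, rfl, rfl⟩ := exists_aut A' B' hp
  have key : ∀ {n m : ℕ} {M N : Matrix (Fin m) (Fin n) (ZMod 2)},
      Iso (LinearMap.id + ρ (α sg)) (LinearMap.id + ρ (α tg)) M N → IsKro ρ M N :=
    fun h => ⟨α, equiv_of_iso α h⟩
  rcases hl with ⟨n, hn, h⟩ | ⟨n, hn, hn', h⟩ | ⟨n, hn, hn', h⟩ | h | h | h | h | h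
  · exact Or.inl ⟨n, hn, key h⟩
  · exact Or.inr (Or.inl ⟨n, hn, hn', key h⟩)
  · exact Or.inr (Or.inr (Or.inl ⟨n, hn, hn', key h⟩))
  · exact Or.inr (Or.inr (Or.inr (Or.inl (key h))))
  · exact Or.inr (Or.inr (Or.inr (Or.inr (Or.inl (key h)))))
  · exact Or.inr (Or.inr (Or.inr (Or.inr (Or.inr (Or.inl (key h))))))
  · exact Or.inr (Or.inr (Or.inr (Or.inr (Or.inr (Or.inr (Or.inl (key h)))))))
  · exact Or.inr (Or.inr (Or.inr (Or.inr (Or.inr (Or.inr (Or.inr (key h)))))))

end Pool.Agent.Helper25.Kro
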